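import Mathlib

/-!
One dimensional Gaussian integrals on the half line and the numerical estimate.
-/

set_option autoImplicit false
open MeasureTheory Real
open scoped ENNReal

namespace Pool.Agent.SolidAngle

lemma lintegral_gauss_Ioi (b : ℝ) (hb : 0 < b) :
    ∫⁻ t in Set.Ioi (0 : ℝ), ENNReal.ofReal (Real.exp (-(1 / 2) * (b * t ^ 2))) =
      ENNReal.ofReal (√(π / (2 * b))) := by
  have h1 := integral_gaussian_Ioi (b / 2)
  have h2 : IntegrableOn (fun x : ℝ => Real.exp (-(b / 2) * x ^ 2)) (Set.Ioi 0) :=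
    (integrable_exp_neg_mul_sq (by positivity)).integrableOn
  have h3 : ∀ t : ℝ, Real.exp (-(1 / 2) * (b * t ^ 2)) = Real.exp (-(b / 2) * t ^ 2) := by
    intro t; congr 1; ring
  simp_rw [h3]
  rw [← ofReal_integral_eq_lintegral_ofReal h2 (Filter.Eventually.of_forall fun _ =>
    (Real.exp_pos _).le), h1]
  congr 1
  have : π / (b / 2) = 2 ^ 2 * (π / (2 * b)) := by field_simp
  rw [this, Real.sqrt_mul (by positivity), Real.sqrt_sq (by norm_num)]
  ring

lemma integral_id_gauss (b : ℝ) (hb : 0 < b) :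
    ∫ t in Set.Ioi (0 : ℝ), t * Real.exp (-(b / 2) * t ^ 2) = 1 / b := by
  have h := integral_rpow_mul_exp_neg_mul_rpow (p := 2) (q := 1) (b := b / 2) (by norm_num)
    (by norm_num) (by positivity)
  simp only [Real.rpow_one, Real.rpow_two] at h
  rw [h]
  have : (-(1 + 1) / 2 : ℝ) = -1 := by norm_num
  have h2 : ((1 + 1) / 2 : ℝ) = 1 := by norm_num
  rw [this, h2, Real.Gamma_one, Real.rpow_neg_one]
  field_simp

lemma integral_sq_gauss (b : ℝ) (hb : 0 < b) :
    ∫ t in Set.Ioi (0 : ℝ), t ^ 2 * Real.exp (-(b / 2) * t ^ 2) = √(π / (2 * b)) / b := by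
  have h := integral_rpow_mul_exp_neg_mul_rpow (p := 2) (q := 2) (b := b / 2) (by norm_num)
    (by norm_num) (by positivity)
  simp only [Real.rpow_two] at h
  rw [h]
  have h2 : ((2 + 1) / 2 : ℝ) = 1 / 2 + 1 := by norm_num
  rw [h2, Real.Gamma_add_one (by norm_num), Real.Gamma_one_half_eq]
  have h3 : (-(2 + 1) / 2 : ℝ) = -1 - 1 / 2 := by norm_num
  rw [h3, Real.rpow_sub (by positivity), Real.rpow_neg_one, ← Real.sqrt_eq_rpow]
  have h4 : √(b / 2) = √b / √2 := Real.sqrt_div hb.le 2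
  have h5 : √(π / (2 * b)) = √π / (√2 * √b) := by
    rw [Real.sqrt_div Real.pi_pos.le, Real.sqrt_mul (by norm_num)]
  rw [h4, h5]
  have h6 : √b ≠ 0 := (Real.sqrt_pos.mpr hb).ne'
  have h7 : √2 ≠ 0 := by positivity
  have h8 : √2 * √2 = 2 := Real.mul_self_sqrt (by norm_num)
  field_simp
  nlinarith [h8, Real.sqrt_nonneg π]

/-- Upper bound for the tilted half line integral. -/
lemma lintegral_tilt_le (b c : ℝ) (hb : 0 < b) (hc : 0 ≤ c) :
    ∫⁻ t in Set.Ioi (0 : ℝ), ENNReal.ofReal (Real.exp (-(1 / 2) * (b * t ^ 2) - c * t)) ≤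
      ENNReal.ofReal (√(π / (2 * b)) * (1 + c ^ 2 / (2 * b)) - c / b) := by
  have hI0 : IntegrableOn (fun x : ℝ => Real.exp (-(b / 2) * x ^ 2)) (Set.Ioi 0) :=
    (integrable_exp_neg_mul_sq (by positivity)).integrableOn
  have hI1 : IntegrableOn (fun x : ℝ => x * Real.exp (-(b / 2) * x ^ 2)) (Set.Ioi 0) :=
    (integrable_mul_exp_neg_mul_sq (by positivity)).integrableOn
  have hI2 : IntegrableOn (fun x : ℝ => x ^ 2 * Real.exp (-(b / 2) * x ^ 2)) (Set.Ioi 0) := by
    have := (integrable_rpow_mul_exp_neg_mul_sq (b := b / 2) (by positivity)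
      (s := 2) (by norm_num)).integrableOn (s := Set.Ioi (0 : ℝ))
    simpa only [Real.rpow_two] using this
  have hint : IntegrableOn (fun x : ℝ => Real.exp (-(b / 2) * x ^ 2)
      - c * (x * Real.exp (-(b / 2) * x ^ 2)) +
      c ^ 2 / 2 * (x ^ 2 * Real.exp (-(b / 2) * x ^ 2))) (Set.Ioi 0) :=
    (hI0.sub (hI1.const_mul c)).add (hI2.const_mul (c ^ 2 / 2))
  have hexp : ∀ x : ℝ, 0 ≤ x → Real.exp (-x) ≤ 1 - x + x ^ 2 / 2 := by
    intro x hx
    have h1 := Real.quadratic_le_exp_of_nonneg hx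
    have h2 : 0 < 1 + x + x ^ 2 / 2 := by positivity
    rw [Real.exp_neg]
    have h3 : (Real.exp x)⁻¹ ≤ (1 + x + x ^ 2 / 2)⁻¹ := inv_anti₀ h2 h1
    refine h3.trans ?_
    rw [inv_le_iff_one_le_mul₀ h2]
    nlinarith [sq_nonneg x, sq_nonneg (x ^ 2)]
  have hnn : ∀ x : ℝ, 0 ≤ x → 0 ≤ Real.exp (-(b / 2) * x ^ 2)
      - c * (x * Real.exp (-(b / 2) * x ^ 2)) +
      c ^ 2 / 2 * (x ^ 2 * Real.exp (-(b / 2) * x ^ 2)) := by
    intro x _
    have : Real.exp (-(b / 2) * x ^ 2)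
      - c * (x * Real.exp (-(b / 2) * x ^ 2)) +
      c ^ 2 / 2 * (x ^ 2 * Real.exp (-(b / 2) * x ^ 2)) =
      Real.exp (-(b / 2) * x ^ 2) * (1 - c * x + (c * x) ^ 2 / 2) := by ring
    rw [this]
    apply mul_nonneg (Real.exp_pos _).le
    nlinarith [sq_nonneg (c * x - 1)]
  calc ∫⁻ t in Set.Ioi (0 : ℝ), ENNReal.ofReal (Real.exp (-(1 / 2) * (b * t ^ 2) - c * t))
      ≤ ∫⁻ x in Set.Ioi (0 : ℝ), ENNReal.ofReal (Real.exp (-(b / 2) * x ^ 2)
      - c * (x * Real.exp (-(b / 2) * x ^ 2)) +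
      c ^ 2 / 2 * (x ^ 2 * Real.exp (-(b / 2) * x ^ 2))) := by
        refine setLIntegral_mono' measurableSet_Ioi fun x hx => ?_
        have hx' : (0 : ℝ) < x := hx
        apply ENNReal.ofReal_le_ofReal
        have h1 : Real.exp (-(1 / 2) * (b * x ^ 2) - c * x) =
            Real.exp (-(b / 2) * x ^ 2) * Real.exp (-(c * x)) := by
          rw [← Real.exp_add]; congr 1; ring
        rw [h1]
        have h2 := hexp (c * x) (by positivity)
        have h3 := mul_le_mul_of_nonneg_left h2 (Real.exp_pos (-(b / 2) * x ^ 2)).le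
        refine h3.trans (le_of_eq ?_)
        ring
    _ = ENNReal.ofReal (∫ x in Set.Ioi (0 : ℝ), (Real.exp (-(b / 2) * x ^ 2)
      - c * (x * Real.exp (-(b / 2) * x ^ 2)) +
      c ^ 2 / 2 * (x ^ 2 * Real.exp (-(b / 2) * x ^ 2)))) := by
        rw [ofReal_integral_eq_lintegral_ofReal hint]
        exact (ae_restrict_iff' measurableSet_Ioi).mpr
          (Filter.Eventually.of_forall fun x hx => hnn x (le_of_lt hx))
    _ = ENNReal.ofReal (√(π / (2 * b)) * (1 + c ^ 2 / (2 * b)) - c / b) := by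
        congr 1
        have e1 : ∫ x in Set.Ioi (0 : ℝ), (Real.exp (-(b / 2) * x ^ 2)
            - c * (x * Real.exp (-(b / 2) * x ^ 2)) +
            c ^ 2 / 2 * (x ^ 2 * Real.exp (-(b / 2) * x ^ 2))) =
            (∫ x in Set.Ioi (0 : ℝ), (Real.exp (-(b / 2) * x ^ 2)
            - c * (x * Real.exp (-(b / 2) * x ^ 2)))) +
            ∫ x in Set.Ioi (0 : ℝ), c ^ 2 / 2 * (x ^ 2 * Real.exp (-(b / 2) * x ^ 2)) :=
          integral_add (hI0.sub (hI1.const_mul c)) (hI2.const_mul (c ^ 2 / 2))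
        have e2 : ∫ x in Set.Ioi (0 : ℝ), (Real.exp (-(b / 2) * x ^ 2)
            - c * (x * Real.exp (-(b / 2) * x ^ 2))) =
            (∫ x in Set.Ioi (0 : ℝ), Real.exp (-(b / 2) * x ^ 2))
            - ∫ x in Set.Ioi (0 : ℝ), c * (x * Real.exp (-(b / 2) * x ^ 2)) :=
          integral_sub hI0 (hI1.const_mul c)
        rw [e1, e2, integral_const_mul, integral_const_mul,
          integral_id_gauss b hb, integral_sq_gauss b hb, integral_gaussian_Ioi]
        have : π / (b / 2) = 2 ^ 2 * (π / (2 * b)) := by field_simp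
        rw [this, Real.sqrt_mul (by positivity), Real.sqrt_sq (by norm_num)]
        field_simp
        ring

/-- The numerical constant of the tilted integral, at `b = 9/10`, `c = 2/25`. -/
noncomputable def hval : ℝ := √(π / (2 * (9 / 10))) * (1 + (2 / 25) ^ 2 / (2 * (9 / 10)))
  - (2 / 25) / (9 / 10)

/-- The numerical inequality: the rate is less than one. -/
lemma rate_lt : Real.exp (4 / 125) * hval * (√(11 / 10))⁻¹ ≤ 49 / 50 * √(π / 2) := by
  have hpi2 := Real.pi_lt_d4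
  set g : ℝ := √(π / 2) with hg
  have hg0 : 0 < g := by positivity
  have hg1 : g ≤ 1.2535 := by
    rw [hg, Real.sqrt_le_left (by norm_num)]
    norm_num
    norm_num at hpi2
    linarith
  have hsq : √(π / (2 * (9 / 10))) = g * √(10 / 9) := by
    rw [hg, ← Real.sqrt_mul (by positivity)]
    congr 1
    ring
  have h109 : √(10 / 9 : ℝ) ≤ 1.0541 := by
    rw [Real.sqrt_le_left (by norm_num)]
    norm_num
  have h11 : (√(11 / 10 : ℝ))⁻¹ ≤ 0.9535 := by
    have h1 : (1 / 0.9535 : ℝ) ≤ √(11 / 10) := by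
      apply Real.le_sqrt_of_sq_le
      norm_num
    calc (√(11 / 10 : ℝ))⁻¹ ≤ (1 / 0.9535 : ℝ)⁻¹ := inv_anti₀ (by norm_num) h1
      _ = 0.9535 := by norm_num
  have hexp : Real.exp (4 / 125) ≤ 1.0331 := by
    have h1 : 1 - (4 / 125 : ℝ) ≤ Real.exp (-(4 / 125)) := by
      have := Real.add_one_le_exp (-(4 / 125) : ℝ)
      linarith
    rw [Real.exp_neg] at h1
    have h2 : (0 : ℝ) < 1 - 4 / 125 := by norm_num
    have h3 := inv_anti₀ h2 h1
    rw [inv_inv] at h3
    refine h3.trans ?_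
    norm_num
  have hh : hval ≤ g * 0.98695 := by
    unfold hval
    rw [hsq]
    have h3 : (2 / 25 : ℝ) / (9 / 10) = 4 / 45 := by norm_num
    have h4 : (4 / 45 : ℝ) ≥ g * (4 / 45 / 1.2535) := by
      have : g * (4 / 45 / 1.2535) ≤ 1.2535 * (4 / 45 / 1.2535) :=
        mul_le_mul_of_nonneg_right hg1 (by norm_num)
      norm_num at this ⊢
      linarith
    have h5 : g * √(10 / 9) * (1 + (2 / 25) ^ 2 / (2 * (9 / 10))) ≤
        g * 1.0541 * (1 + (2 / 25) ^ 2 / (2 * (9 / 10))) := by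
      apply mul_le_mul_of_nonneg_right _ (by norm_num)
      exact mul_le_mul_of_nonneg_left h109 hg0.le
    have h6 : (1.0541 : ℝ) * (1 + (2 / 25) ^ 2 / (2 * (9 / 10))) - 4 / 45 / 1.2535 ≤ 0.98695 := by
      norm_num
    have h7 := mul_le_mul_of_nonneg_left h6 hg0.le
    rw [h3]
    linarith
  have hh0 : 0 ≤ g * 0.98695 := by positivity
  calc Real.exp (4 / 125) * hval * (√(11 / 10))⁻¹
      ≤ Real.exp (4 / 125) * (g * 0.98695) * (√(11 / 10))⁻¹ := by
        apply mul_le_mul_of_nonneg_right _ (by positivity)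
        exact mul_le_mul_of_nonneg_left hh (Real.exp_pos _).le
    _ ≤ 1.0331 * (g * 0.98695) * 0.9535 := by
        apply mul_le_mul _ h11 (by positivity) (by positivity)
        exact mul_le_mul_of_nonneg_right hexp hh0
    _ ≤ 49 / 50 * g := by nlinarith

end Pool.Agent.SolidAngle
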