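import Pool.Agent.SolidAngle.Moment
import Pool.Agent.SolidAngle.OneDim

/-!
Bounds for the two exponential moments.
-/

set_option autoImplicit false
open MeasureTheory MeasureTheory.Measure Matrix Real
open scoped ENNReal MatrixOrder

namespace Pool.Agent.SolidAngle

/-- The nonnegative orthant. -/
def orth (d : ℕ) : Set (Fin d → ℝ) := Set.univ.pi fun _ => Set.Ici 0

lemma mem_orth {d : ℕ} (y : Fin d → ℝ) : y ∈ orth d ↔ ∀ i, 0 ≤ y i := by
  simp only [orth, Set.mem_pi, Set.mem_univ, true_implies, Set.mem_Ici]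

lemma measurableSet_orth (d : ℕ) : MeasurableSet (orth d) :=
  MeasurableSet.univ_pi fun _ => measurableSet_Ici

/-- Total mass of the weight. -/
noncomputable def zc (d : ℕ) : ℝ≥0∞ := ∫⁻ x : Fin d → ℝ, w x

lemma zc_eq (d : ℕ) : zc d = ENNReal.ofReal (√(2 * π)) ^ d := by
  unfold zc
  simp_rw [w_eq_prod]
  rw [volume_pi, lintegral_fin_prod (fun (_ : Fin d) (t : ℝ) =>
    ENNReal.ofReal (Real.exp (-(1 / 2) * t ^ 2))) (fun _ => by fun_prop)]
  rw [Finset.prod_const, Finset.card_univ, Fintype.card_fin]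
  congr 1
  have h1 := integral_gaussian (1 / 2)
  have h2 : Integrable (fun x : ℝ => Real.exp (-(1 / 2) * x ^ 2)) :=
    integrable_exp_neg_mul_sq (by norm_num)
  rw [← ofReal_integral_eq_lintegral_ofReal h2 (Filter.Eventually.of_forall fun _ =>
    (Real.exp_pos _).le), h1]
  congr 2
  ring

lemma zc_ne_zero (d : ℕ) : zc d ≠ 0 := by
  rw [zc_eq]
  apply pow_ne_zero
  rw [Ne, ENNReal.ofReal_eq_zero, not_le]
  positivity

lemma zc_ne_top (d : ℕ) : zc d ≠ ∞ := by
  rw [zc_eq]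
  exact ENNReal.pow_ne_top ENNReal.ofReal_ne_top

lemma zc_half (d : ℕ) : zc d = (2 * ENNReal.ofReal (√(π / 2))) ^ d := by
  rw [zc_eq]
  congr 1
  have h1 : √(2 * π) = 2 * √(π / 2) := by
    have : 2 * π = 2 ^ 2 * (π / 2) := by ring
    rw [this, Real.sqrt_mul (by positivity), Real.sqrt_sq (by norm_num)]
  rw [h1, ENNReal.ofReal_mul (by norm_num)]
  norm_num

/-- The homogenised integral without tilt, over the full space. -/
lemma Q_zero (d : ℕ) :
    ∫⁻ u in Set.Ioi (0 : ℝ), ∫⁻ x in (Set.univ : Set (Fin d → ℝ)),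
      ENNReal.ofReal (Real.exp (-(1 / 2) * qform 0 u x)) =
    ENNReal.ofReal (√(π / 2)) * zc d := by
  have h1 : ∀ (u : ℝ) (x : Fin d → ℝ), ENNReal.ofReal (Real.exp (-(1 / 2) * qform 0 u x)) =
      ENNReal.ofReal (Real.exp (-(1 / 2) * (1 * u ^ 2))) * w x := by
    intro u x
    unfold w qform
    rw [← ENNReal.ofReal_mul (Real.exp_pos _).le, ← Real.exp_add]
    congr 2
    ring
  simp_rw [h1, Measure.restrict_univ, lintegral_const_mul _ measurable_w]
  rw [lintegral_mul_const _ (by fun_prop), lintegral_gauss_Ioi 1 one_pos, zc, mul_one]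

/-- For every matrix the full transformed Gaussian mass is at most the total mass. -/
lemma det_mass_le {d : ℕ} (G : Fin d → Fin d → ℝ) :
    ENNReal.ofReal |(Matrix.of G).det| * ∫⁻ y in (Set.univ : Set (Fin d → ℝ)),
      w (Matrix.of G *ᵥ y) ≤ zc d := by
  by_cases h : (Matrix.of G).det = 0
  · rw [h]; simp
  · rw [Measure.restrict_univ, lintegral_vec _ h w measurable_w, ← mul_assoc,
      ← ENNReal.ofReal_mul (abs_nonneg _), mul_inv_cancel₀ (abs_ne_zero.mpr h),
      ENNReal.ofReal_one, one_mul]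
    rfl

lemma lintegral_prod_w (d : ℕ) : ∫⁻ G : Fin d → Fin d → ℝ, ∏ k, w (G k) = zc d ^ d := by
  rw [volume_pi, lintegral_fin_prod (fun (_ : Fin d) => w) (fun _ => measurable_w),
    Finset.prod_const, Finset.card_univ, Fintype.card_fin]
  rfl

/-- Abstract bound of the tilted moment by the homogenised orthant integral. -/
theorem moment_bound {d : ℕ} (s : ℝ) (hs : 0 ≤ s) (hsd : s * d < 1) :
    (∫⁻ G : Fin d → Fin d → ℝ, (∏ k, w (G k)) *
      ENNReal.ofReal (Real.exp ((1 / 2) * s * colSumSq G)) *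
      (ENNReal.ofReal |(Matrix.of G).det| * ∫⁻ y in orth d, w (Matrix.of G *ᵥ y))) *
      ENNReal.ofReal (√(π / 2)) ≤
    (∫⁻ u in Set.Ioi (0 : ℝ), ∫⁻ x in orth d,
      ENNReal.ofReal (Real.exp (-(1 / 2) * qform s u x))) * zc d ^ d := by
  have hcone : ∀ u : ℝ, 0 < u → ∀ y : Fin d → ℝ, u • y ∈ orth d ↔ y ∈ orth d := by
    intro u hu y
    rw [mem_orth, mem_orth]
    refine forall_congr' fun i => ?_
    simp [mul_nonneg_iff_of_pos_left hu]
  have e1 := moment_formula (orth d) s hs hsd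
  have e2 := moment_formula (Set.univ : Set (Fin d → ℝ)) 0 le_rfl (by simp)
  have e3 := cone_integral (orth d) (measurableSet_orth d) hcone s hs hsd
  have e4 := cone_integral (Set.univ : Set (Fin d → ℝ)) MeasurableSet.univ (by simp) 0 le_rfl
    (by simp)
  rw [Q_zero] at e4
  set Is := ∫⁻ y in orth d, ENNReal.ofReal (√(Amat s y).det)⁻¹ ^ (d + 1) with hIs
  set I0 := ∫⁻ y in (Set.univ : Set (Fin d → ℝ)), ENNReal.ofReal (√(Amat 0 y).det)⁻¹ ^ (d + 1)
    with hI0
  have e5 : Dconst d * I0 ≤ zc d ^ d * zc d := by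
    rw [← e2, ← lintegral_prod_w, ← lintegral_mul_const _ measurable_prod_w]
    refine lintegral_mono fun G => ?_
    have := det_mass_le G
    calc _ = (∏ k, w (G k)) * (ENNReal.ofReal |(Matrix.of G).det| *
          ∫⁻ y in (Set.univ : Set (Fin d → ℝ)), w (Matrix.of G *ᵥ y)) := by
            simp
      _ ≤ _ := by gcongr
  rw [e1, ← e3]
  have hz0 := zc_ne_zero d
  have hz1 := zc_ne_top d
  have key : Dconst d * Is * ENNReal.ofReal (√(π / 2)) * zc d ≤
      Cconst d * Is * zc d ^ d * zc d := by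
    calc Dconst d * Is * ENNReal.ofReal (√(π / 2)) * zc d
        = Dconst d * Is * (ENNReal.ofReal (√(π / 2)) * zc d) := by ring
      _ = Dconst d * Is * (Cconst d * I0) := by rw [e4]
      _ = Cconst d * Is * (Dconst d * I0) := by ring
      _ ≤ Cconst d * Is * (zc d ^ d * zc d) := by gcongr
      _ = Cconst d * Is * zc d ^ d * zc d := by ring
  exact (ENNReal.mul_le_mul_iff_left hz0 hz1).mp key

/-- The orthant integral with `s = 1 / (10 d)`. -/
theorem Q_bound {d : ℕ} (hd : 0 < d) :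
    ∫⁻ u in Set.Ioi (0 : ℝ), ∫⁻ x in orth d,
      ENNReal.ofReal (Real.exp (-(1 / 2) * qform (1 / (10 * d)) u x)) ≤
    ENNReal.ofReal (√(π / (2 * (9 / 10)))) *
      (ENNReal.ofReal (Real.exp (4 / 125)) * ENNReal.ofReal hval) ^ d := by
  have hd' : (0 : ℝ) < d := by exact_mod_cast hd
  have h1 : ∀ (u : ℝ) (x : Fin d → ℝ),
      ENNReal.ofReal (Real.exp (-(1 / 2) * qform (1 / (10 * d)) u x)) ≤
      ENNReal.ofReal (Real.exp (-(1 / 2) * ((9 / 10) * u ^ 2))) *
        ∏ i, (ENNReal.ofReal (Real.exp (4 / 125)) *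
          ENNReal.ofReal (Real.exp (-(1 / 2) * ((9 / 10) * x i ^ 2) - (2 / 25) * x i))) := by
    intro u x
    simp_rw [← ENNReal.ofReal_mul (Real.exp_pos _).le, ← Real.exp_add]
    rw [← ENNReal.ofReal_prod_of_nonneg (fun i _ => (Real.exp_pos _).le), ← Real.exp_sum,
      ← ENNReal.ofReal_mul (Real.exp_pos _).le, ← Real.exp_add]
    apply ENNReal.ofReal_le_ofReal
    apply Real.exp_le_exp.mpr
    have e1 : ∑ i, ((4 : ℝ) / 125 + (-(1 / 2) * (9 / 10 * x i ^ 2) - 2 / 25 * x i)) =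
        4 / 125 * d - (9 / 20) * ∑ i, x i ^ 2 - 2 / 25 * ∑ i, x i := by
      rw [Finset.sum_add_distrib, Finset.sum_sub_distrib, ← Finset.mul_sum, ← Finset.mul_sum,
        ← Finset.mul_sum]
      simp
      ring
    rw [e1, qform]
    have e2 : (1 : ℝ) / (10 * d) * d = 1 / 10 := by field_simp
    rw [e2]
    set S := ∑ i, x i with hS
    have e3 : 0 ≤ (S - 4 / 5 * d) ^ 2 := sq_nonneg _
    have e4 : (1 : ℝ) / (10 * d) * S ^ 2 ≥ 4 / 25 * S - 8 / 125 * d := by
      have h5 : (1 : ℝ) / (10 * d) * S ^ 2 - (4 / 25 * S - 8 / 125 * d) =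
          (1 / (10 * d)) * (S - 4 / 5 * d) ^ 2 := by
        field_simp
        ring
      have h6 : 0 ≤ (1 / (10 * (d : ℝ))) * (S - 4 / 5 * d) ^ 2 := by positivity
      linarith
    nlinarith
  calc _ ≤ ∫⁻ u in Set.Ioi (0 : ℝ), ∫⁻ x in orth d,
        ENNReal.ofReal (Real.exp (-(1 / 2) * ((9 / 10) * u ^ 2))) *
        ∏ i, (ENNReal.ofReal (Real.exp (4 / 125)) *
          ENNReal.ofReal (Real.exp (-(1 / 2) * ((9 / 10) * x i ^ 2) - (2 / 25) * x i))) := by
        refine lintegral_mono fun u => lintegral_mono fun x => h1 u x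
    _ = ENNReal.ofReal (√(π / (2 * (9 / 10)))) * (∫⁻ t in Set.Ici (0 : ℝ),
          (ENNReal.ofReal (Real.exp (4 / 125)) *
          ENNReal.ofReal (Real.exp (-(1 / 2) * ((9 / 10) * t ^ 2) - (2 / 25) * t)))) ^ d := by
        have e1 : ∀ u : ℝ, ∫⁻ x in orth d,
            ENNReal.ofReal (Real.exp (-(1 / 2) * ((9 / 10) * u ^ 2))) *
            ∏ i, (ENNReal.ofReal (Real.exp (4 / 125)) *
            ENNReal.ofReal (Real.exp (-(1 / 2) * ((9 / 10) * x i ^ 2) - (2 / 25) * x i))) =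
            ENNReal.ofReal (Real.exp (-(1 / 2) * ((9 / 10) * u ^ 2))) *
            (∫⁻ t in Set.Ici (0 : ℝ), (ENNReal.ofReal (Real.exp (4 / 125)) *
            ENNReal.ofReal (Real.exp (-(1 / 2) * ((9 / 10) * t ^ 2) - (2 / 25) * t)))) ^ d := by
          intro u
          rw [lintegral_const_mul _ (by fun_prop)]
          congr 1
          rw [orth, volume_pi, Measure.restrict_pi_pi, lintegral_fin_prod
            (fun (_ : Fin d) (t : ℝ) => (ENNReal.ofReal (Real.exp (4 / 125)) *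
            ENNReal.ofReal (Real.exp (-(1 / 2) * ((9 / 10) * t ^ 2) - (2 / 25) * t))))
            (fun _ => by fun_prop), Finset.prod_const, Finset.card_univ, Fintype.card_fin]
        simp_rw [e1]
        rw [lintegral_mul_const _ (by fun_prop), lintegral_gauss_Ioi (9 / 10) (by norm_num)]
    _ ≤ _ := by
        gcongr
        rw [lintegral_const_mul _ (by fun_prop)]
        gcongr
        rw [setLIntegral_congr Ioi_ae_eq_Ici.symm]
        exact lintegral_tilt_le (9 / 10) (2 / 25) (by norm_num) (by norm_num)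

/-- The negative exponential moment of `colSumSq`. -/
theorem neg_moment {d : ℕ} (hd : 0 < d) :
    ∫⁻ G : Fin d → Fin d → ℝ, (∏ k, w (G k)) *
      ENNReal.ofReal (Real.exp (-((1 / 2) * (1 / (10 * d)) * colSumSq G))) =
    (ENNReal.ofReal (√(11 / 10))⁻¹ * zc d) ^ d := by
  have hd' : (0 : ℝ) < d := by exact_mod_cast hd
  set s : ℝ := 1 / (10 * d) with hs
  have hs0 : 0 < s := by positivity
  have hpd : (Amat (-s) (0 : Fin d → ℝ)).PosDef := by
    refine PosDef.of_dotProduct_mulVec_pos ?_ ?_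
    · unfold Amat
      ext i j
      simp [vecMulVec_apply, Matrix.one_apply, eq_comm]
    · intro x hx
      rw [star_trivial, Amat_quad]
      have h2 : 0 < ∑ i, x i ^ 2 := by
        obtain ⟨i, hi⟩ := Function.ne_iff.mp hx
        have hi' : x i ≠ 0 := hi
        exact Finset.sum_pos' (fun j _ => sq_nonneg _) ⟨i, Finset.mem_univ i, by positivity⟩
      have h3 : 0 ≤ s * (∑ i, x i) ^ 2 := by positivity
      have h4 : (x ⬝ᵥ (0 : Fin d → ℝ)) ^ 2 = 0 := by simp
      rw [h4]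
      linarith
  have hdet : (Amat (-s) (0 : Fin d → ℝ)).det = 11 / 10 := by
    rw [Amat_det]
    simp [hs]
    field_simp
    norm_num
  have h1 : ∀ G : Fin d → Fin d → ℝ, (∏ k, w (G k)) *
      ENNReal.ofReal (Real.exp (-((1 / 2) * s * colSumSq G))) =
      ∏ k, ENNReal.ofReal (Real.exp (-(1 / 2) * ((G k) ⬝ᵥ (Amat (-s) 0 *ᵥ (G k))))) := by
    intro G
    unfold w colSumSq
    rw [← ENNReal.ofReal_prod_of_nonneg (fun i _ => (Real.exp_pos _).le),
      ← ENNReal.ofReal_prod_of_nonneg (fun i _ => (Real.exp_pos _).le),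
      ← ENNReal.ofReal_mul (Finset.prod_nonneg fun i _ => (Real.exp_pos _).le)]
    congr 1
    rw [← Real.exp_sum, ← Real.exp_sum, ← Real.exp_add]
    congr 1
    simp_rw [Amat_quad]
    rw [Finset.mul_sum, ← Finset.sum_neg_distrib, ← Finset.sum_add_distrib]
    refine Finset.sum_congr rfl fun k _ => ?_
    simp
    ring
  simp_rw [h1]
  have hm : Measurable (fun x : Fin d → ℝ =>
      ENNReal.ofReal (Real.exp (-(1 / 2) * (x ⬝ᵥ (Amat (-s) 0 *ᵥ x))))) := by
    simp_rw [Amat_quad]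
    simp only [dotProduct]
    fun_prop
  rw [volume_pi, lintegral_fin_prod (fun (_ : Fin d) (x : Fin d → ℝ) =>
      ENNReal.ofReal (Real.exp (-(1 / 2) * (x ⬝ᵥ (Amat (-s) 0 *ᵥ x))))) (fun _ => hm),
    Finset.prod_const, Finset.card_univ, Fintype.card_fin, lintegral_posDef _ hpd, hdet]
  rfl

end Pool.Agent.SolidAngle
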