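import Pool.Agent.SolidAngle.Plain

/-!
Convergence to zero in distribution of the rescaled solid angle.
-/

set_option autoImplicit false
open MeasureTheory MeasureTheory.Measure Matrix Filter Topology
open scoped ENNReal MatrixOrder

namespace Pool.Agent.SolidAngle

lemma measurable_ang (d : ℕ) {μ : Measure (Fin d → ℝ)} [IsProbabilityMeasure μ] :
    Measurable (fun u : Fin d → Fin d → ℝ => (2 : ℝ) ^ d * (μ (coneOf u)).toReal) := by
  have h1 : Measurable (fun u : Fin d → Fin d → ℝ => μ (coneOf u)) :=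
    measurable_measure_prodMk_left (ν := μ) (measurableSet_conePairs d)
  exact (h1.ennreal_toReal).const_mul _

/-- Tail bound. -/
theorem tail_tau {d : ℕ} (hd : 0 < d) (δ : ℝ) (hδ : 0 < δ) :
    (Measure.pi fun _ : Fin d => tau d).real
      {u | δ ≤ 2 ^ d * (tau d (coneOf u)).toReal} ≤ √(2 * (49 / 50) ^ d / δ) := by
  haveI : IsProbabilityMeasure (tau d) := tau_prob d
  have key : (Measure.pi fun _ : Fin d => tau d)
      {u | δ ≤ 2 ^ d * (tau d (coneOf u)).toReal} ≤
      (ENNReal.ofReal 2 * ENNReal.ofReal (49 / 50) ^ d) ^ (1 / 2 : ℝ) /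
      ENNReal.ofReal δ ^ (1 / 2 : ℝ) := by
    have h0 : ENNReal.ofReal δ ^ (1 / 2 : ℝ) ≠ 0 := by
      have : ENNReal.ofReal δ ≠ 0 := by simpa using hδ
      simp [this]
    have ht : ENNReal.ofReal δ ^ (1 / 2 : ℝ) ≠ ∞ :=
      ENNReal.rpow_ne_top_of_nonneg (by norm_num) ENNReal.ofReal_ne_top
    rw [ENNReal.le_div_iff_mul_le (Or.inl h0) (Or.inl ht), mul_comm]
    refine le_trans ?_ (half_moment_tau hd)
    have hFm : Measurable (fun u : Fin d → Fin d → ℝ =>
        (2 ^ d * tau d (coneOf u)) ^ (1 / 2 : ℝ)) := by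
      apply Measurable.pow_const
      apply Measurable.const_mul
      exact measurable_measure_prodMk_left (ν := tau d) (measurableSet_conePairs d)
    refine le_trans ?_ (mul_meas_ge_le_lintegral hFm (ENNReal.ofReal δ ^ (1 / 2 : ℝ)))
    gcongr with u
    intro hu
    apply ENNReal.rpow_le_rpow _ (by norm_num)
    have h2 : ENNReal.ofReal (2 ^ d * (tau d (coneOf u)).toReal) = 2 ^ d * tau d (coneOf u) := by
      rw [ENNReal.ofReal_mul (by positivity), ENNReal.ofReal_toReal (measure_ne_top _ _)]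
      congr 1
      rw [ENNReal.ofReal_pow (by norm_num)]
      norm_num
    rw [← h2]
    exact ENNReal.ofReal_le_ofReal hu
  have hrw : (ENNReal.ofReal 2 * ENNReal.ofReal (49 / 50) ^ d) ^ (1 / 2 : ℝ) /
      ENNReal.ofReal δ ^ (1 / 2 : ℝ) = ENNReal.ofReal (√(2 * (49 / 50) ^ d / δ)) := by
    rw [← ENNReal.div_rpow_of_nonneg _ _ (by norm_num), ← ENNReal.ofReal_pow (by norm_num),
      ← ENNReal.ofReal_mul (by norm_num), ← ENNReal.ofReal_div_of_pos hδ,
      ENNReal.ofReal_rpow_of_nonneg (by positivity) (by norm_num), Real.sqrt_eq_rpow]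
  rw [hrw] at key
  unfold Measure.real
  exact ENNReal.toReal_le_of_le_ofReal (Real.sqrt_nonneg _) key

theorem tail_uniform {d : ℕ} (hd : 0 < d) {μ : Measure (Fin d → ℝ)} (hμ : IsUniformOnSphere μ)
    (δ : ℝ) (hδ : 0 < δ) :
    (Measure.pi fun _ : Fin d => μ).real
      {u | δ ≤ 2 ^ d * (μ (coneOf u)).toReal} ≤ √(2 * (49 / 50) ^ d / δ) := by
  rw [uniform_unique hμ (tau_uniform hd)]
  exact tail_tau hd δ hδ

theorem weak_limit {σ : (d : ℕ) → Measure (Fin d → ℝ)}
    (hσ : ∀ d, 1 ≤ d → IsUniformOnSphere (σ d)) (f : ℝ → ℝ) (hf : Continuous f)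
    (hb : ∃ M, ∀ x, |f x| ≤ M) :
    Tendsto (fun d : ℕ => ∫ u, f (2 ^ d * (σ d (coneOf u)).toReal)
      ∂(Measure.pi fun _ : Fin d => σ d)) atTop (𝓝 (f 0)) := by
  obtain ⟨M0, hM0⟩ := hb
  set M : ℝ := |M0| with hMdef
  have hM : ∀ x, |f x| ≤ M := fun x => (hM0 x).trans (le_abs_self _)
  have hMn : 0 ≤ M := abs_nonneg _
  rw [Metric.tendsto_atTop]
  intro ε hε
  obtain ⟨δ, hδ, hfδ⟩ := Metric.continuousAt_iff.mp (hf.continuousAt (x := (0 : ℝ)))
    (ε / 2) (by positivity)
  have hsqrt : Tendsto (fun d : ℕ => √(2 * (49 / 50) ^ d / δ)) atTop (𝓝 0) := by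
    have e1 : Tendsto (fun d : ℕ => (49 / 50 : ℝ) ^ d) atTop (𝓝 0) :=
      tendsto_pow_atTop_nhds_zero_of_lt_one (by norm_num) (by norm_num)
    have e2 := (((e1.const_mul 2).div_const δ).sqrt)
    simpa using e2
  obtain ⟨N, hN⟩ := (Metric.tendsto_atTop.mp hsqrt) (ε / (4 * (M + 1))) (by positivity)
  refine ⟨max N 1, fun d hd => ?_⟩
  have hdN : N ≤ d := (le_max_left _ _).trans hd
  have hd1 : 1 ≤ d := (le_max_right N 1).trans hd
  have hu := hσ d hd1
  haveI := hu.1
  have hNd := hN d hdN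
  rw [Real.dist_eq, sub_zero, abs_of_nonneg (Real.sqrt_nonneg _)] at hNd
  rw [Real.dist_eq]
  set P : Measure (Fin d → Fin d → ℝ) := Measure.pi fun _ : Fin d => σ d with hP
  haveI : IsProbabilityMeasure P := by rw [hP]; infer_instance
  set X : (Fin d → Fin d → ℝ) → ℝ := fun u => 2 ^ d * (σ d (coneOf u)).toReal with hX
  have hXm : Measurable X := measurable_ang d
  have hX0 : ∀ u, 0 ≤ X u := fun u => by rw [hX]; positivity
  have hfm : Measurable (fun u => f (X u)) := hf.measurable.comp hXm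
  have hfi : Integrable (fun u => f (X u)) P :=
    Integrable.of_bound hfm.aestronglyMeasurable M
      (Eventually.of_forall fun u => by rw [Real.norm_eq_abs]; exact hM _)
  have h1 : ∫ u, f (X u) ∂P - f 0 = ∫ u, (f (X u) - f 0) ∂P := by
    rw [integral_sub hfi (integrable_const _)]
    simp
  set S : Set (Fin d → Fin d → ℝ) := {u | δ ≤ X u} with hS
  have hs : MeasurableSet S := measurableSet_le measurable_const hXm
  set g : (Fin d → Fin d → ℝ) → ℝ := fun u => ε / 2 + S.indicator (fun _ => 2 * M) u with hg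
  have hgi : Integrable g P :=
    (integrable_const _).add ((integrable_const _).indicator hs)
  have h2 : ∀ u, |f (X u) - f 0| ≤ g u := by
    intro u
    by_cases hx : δ ≤ X u
    · have e1 : g u = ε / 2 + 2 * M := by
        rw [hg]; simp only
        rw [Set.indicator_of_mem (by exact hx)]
      rw [e1]
      have e2 : |f (X u) - f 0| ≤ 2 * M := by
        calc |f (X u) - f 0| ≤ |f (X u)| + |f 0| := abs_sub _ _
          _ ≤ 2 * M := by linarith [hM (X u), hM 0]
      linarith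
    · have e1 : g u = ε / 2 := by
        rw [hg]; simp only
        rw [Set.indicator_of_notMem (by exact hx), add_zero]
      rw [e1]
      have := hfδ (x := X u) (by
        rw [Real.dist_eq, sub_zero, abs_of_nonneg (hX0 u)]; exact not_le.mp hx)
      rw [Real.dist_eq] at this
      exact this.le
  have htail : P.real S ≤ √(2 * (49 / 50) ^ d / δ) := tail_uniform hd1 hu δ hδ
  calc |∫ u, f (X u) ∂P - f 0| = |∫ u, (f (X u) - f 0) ∂P| := by rw [h1]
    _ ≤ ∫ u, |f (X u) - f 0| ∂P := abs_integral_le_integral_abs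
    _ ≤ ∫ u, g u ∂P := by
        apply integral_mono _ hgi h2
        exact (hfi.sub (integrable_const _)).abs
    _ = ε / 2 + P.real S * (2 * M) := by
        rw [hg, integral_add (integrable_const _) ((integrable_const _).indicator hs),
          integral_indicator_const _ hs]
        simp
    _ < ε := by
        have h3 : P.real S * (2 * M) ≤ ε / (4 * (M + 1)) * (2 * M) :=
          mul_le_mul_of_nonneg_right (htail.trans hNd.le) (by positivity)
        have h4 : ε / (4 * (M + 1)) * (2 * M) < ε / 2 := by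
          rw [div_mul_eq_mul_div, div_lt_iff₀ (by positivity)]
          nlinarith
        linarith

/-- No limit law has mean one. -/
theorem no_mean_one {σ : (d : ℕ) → Measure (Fin d → ℝ)}
    (hσ : ∀ d, 1 ≤ d → IsUniformOnSphere (σ d)) :
    ¬ ∃ ν : Measure ℝ, IsProbabilityMeasure ν ∧
      (∀ f : ℝ → ℝ, Continuous f → (∃ M, ∀ x, |f x| ≤ M) →
        Tendsto (fun d : ℕ => ∫ u, f (2 ^ d * (σ d (coneOf u)).toReal)
          ∂(Measure.pi fun _ : Fin d => σ d)) atTop (𝓝 (∫ x, f x ∂ν))) ∧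
      ∫ x, x ∂ν = 1 := by
  rintro ⟨ν, hν, hlim, hmean⟩
  have h1 : ν = Measure.dirac 0 := by
    apply ext_of_forall_integral_eq_of_IsFiniteMeasure
    intro f
    rw [integral_dirac]
    have hb : ∃ M, ∀ x, |f x| ≤ M := ⟨‖f‖, fun x => by
      rw [← Real.norm_eq_abs]; exact f.norm_coe_le_norm x⟩
    exact tendsto_nhds_unique (hlim f f.continuous hb) (weak_limit hσ f f.continuous hb)
  rw [h1, integral_dirac] at hmean
  exact zero_ne_one hmean

theorem main :
    (∀ d : ℕ, 1 ≤ d → ∃! μ : Measure (Fin d → ℝ), IsUniformOnSphere μ) ∧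
    ∀ σ : (d : ℕ) → Measure (Fin d → ℝ), (∀ d, 1 ≤ d → IsUniformOnSphere (σ d)) →
      (∀ d : ℕ, 1 ≤ d → ∀ δ : ℝ, 0 < δ →
        (Measure.pi fun _ : Fin d => σ d).real {u | δ ≤ 2 ^ d * (σ d (coneOf u)).toReal} ≤
          √(2 * (49 / 50) ^ d / δ)) ∧
      (∀ f : ℝ → ℝ, Continuous f → (∃ M, ∀ x, |f x| ≤ M) →
        Tendsto (fun d : ℕ => ∫ u, f (2 ^ d * (σ d (coneOf u)).toReal)
          ∂(Measure.pi fun _ : Fin d => σ d)) atTop (𝓝 (f 0))) ∧
      ¬ ∃ ν : Measure ℝ, IsProbabilityMeasure ν ∧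
        (∀ f : ℝ → ℝ, Continuous f → (∃ M, ∀ x, |f x| ≤ M) →
          Tendsto (fun d : ℕ => ∫ u, f (2 ^ d * (σ d (coneOf u)).toReal)
            ∂(Measure.pi fun _ : Fin d => σ d)) atTop (𝓝 (∫ x, f x ∂ν))) ∧
        ∫ x, x ∂ν = 1 := by
  refine ⟨fun d hd => ⟨tau d, tau_uniform hd, fun μ hμ => uniform_unique hμ (tau_uniform hd)⟩,
    fun σ hσ => ⟨fun d hd δ hδ => tail_uniform hd (hσ d hd) δ hδ, fun f hf hb =>
      weak_limit hσ f hf hb, no_mean_one hσ⟩⟩

end Pool.Agent.SolidAngle
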