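import Pool.Agent.SolidAngle.PiTools

/-!
Linear changes of variables for Gaussian weights on square matrices (given by their rows).
-/

set_option autoImplicit false
open MeasureTheory MeasureTheory.Measure Matrix
open scoped ENNReal MatrixOrder

namespace Pool.Agent.SolidAngle

/-- The unnormalised standard Gaussian weight. -/
noncomputable def w {d : ℕ} (x : Fin d → ℝ) : ℝ≥0∞ :=
  ENNReal.ofReal (Real.exp (-(1 / 2) * ∑ i, x i ^ 2))

lemma measurable_w {d : ℕ} : Measurable (w : (Fin d → ℝ) → ℝ≥0∞) := by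
  unfold w
  fun_prop

lemma w_eq_prod {d : ℕ} (x : Fin d → ℝ) :
    w x = ∏ i, ENNReal.ofReal (Real.exp (-(1 / 2) * x i ^ 2)) := by
  unfold w
  rw [← ENNReal.ofReal_prod_of_nonneg (fun i _ => (Real.exp_pos _).le), ← Real.exp_sum,
    Finset.mul_sum]

/-- `w` of a linear image. -/
lemma w_mulVec {d : ℕ} (B : Matrix (Fin d) (Fin d) ℝ) (x : Fin d → ℝ) :
    w (B *ᵥ x) = ENNReal.ofReal (Real.exp (-(1 / 2) * (x ⬝ᵥ ((Bᵀ * B) *ᵥ x)))) := by
  unfold w
  congr 3
  rw [← Matrix.mulVec_mulVec, Matrix.dotProduct_mulVec, Matrix.vecMul_transpose]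
  simp [dotProduct, sq]

/-- Change of variables acting on all rows. -/
theorem lintegral_rows {d : ℕ} (B : Matrix (Fin d) (Fin d) ℝ) (hB : B.det ≠ 0)
    (f : (Fin d → Fin d → ℝ) → ℝ≥0∞) (hf : Measurable f) :
    ∫⁻ G : Fin d → Fin d → ℝ, f (fun k => B *ᵥ (G k)) =
      ENNReal.ofReal (|B.det|⁻¹) ^ d * ∫⁻ G, f G := by
  have hmap : (volume : Measure (Fin d → Fin d → ℝ)).map (fun G k => B *ᵥ (G k)) =
      ENNReal.ofReal (|B.det|⁻¹) ^ d • (volume : Measure (Fin d → Fin d → ℝ)) := by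
    have h1 : (volume : Measure (Fin d → ℝ)).map (fun x => B *ᵥ x) =
        ENNReal.ofReal (|B.det|⁻¹) • (volume : Measure (Fin d → ℝ)) := by
      have := Real.map_matrix_volume_pi_eq_smul_volume_pi hB
      rw [abs_inv] at this
      exact this
    have hs1 : SigmaFinite (ENNReal.ofReal (|B.det|⁻¹) • (volume : Measure (Fin d → ℝ))) :=
      inferInstanceAs (SigmaFinite (Real.toNNReal (|B.det|⁻¹) • (volume : Measure (Fin d → ℝ))))
    have hs2 : ∀ _ : Fin d,
        SigmaFinite ((volume : Measure (Fin d → ℝ)).map (fun x => B *ᵥ x)) := by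
      intro _
      rw [h1]; exact hs1
    have hm : Measurable (fun x : Fin d → ℝ => B *ᵥ x) := by
      have : Continuous (fun x : Fin d → ℝ => B *ᵥ x) := by fun_prop
      exact this.measurable
    rw [volume_pi, pi_map_pi (f := fun _ x => B *ᵥ x) (hμ := hs2) (fun i => hm.aemeasurable)]
    simp_rw [h1]
    exact pi_smul _ _
  have hm2 : Measurable (fun (G : Fin d → Fin d → ℝ) k => B *ᵥ (G k)) := by
    have : Continuous (fun (G : Fin d → Fin d → ℝ) k => B *ᵥ (G k)) := by fun_prop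
    exact this.measurable
  rw [← lintegral_map hf hm2, hmap, lintegral_smul_measure, smul_eq_mul]

/-- Change of variables for one vector. -/
theorem lintegral_vec {d : ℕ} (B : Matrix (Fin d) (Fin d) ℝ) (hB : B.det ≠ 0)
    (f : (Fin d → ℝ) → ℝ≥0∞) (hf : Measurable f) :
    ∫⁻ x : Fin d → ℝ, f (B *ᵥ x) = ENNReal.ofReal (|B.det|⁻¹) * ∫⁻ x, f x := by
  have h1 : (volume : Measure (Fin d → ℝ)).map (fun x => B *ᵥ x) =
      ENNReal.ofReal (|B.det|⁻¹) • (volume : Measure (Fin d → ℝ)) := by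
    have := Real.map_matrix_volume_pi_eq_smul_volume_pi hB
    rw [abs_inv] at this
    exact this
  have hm : Measurable (fun x : Fin d → ℝ => B *ᵥ x) := by
    have : Continuous (fun x : Fin d → ℝ => B *ᵥ x) := by fun_prop
    exact this.measurable
  rw [← lintegral_map hf hm, h1, lintegral_smul_measure, smul_eq_mul]

/-- The constant `∫ |det G| exp (-|G|²/2) dG`. -/
noncomputable def Dconst (d : ℕ) : ℝ≥0∞ :=
  ∫⁻ G : Fin d → Fin d → ℝ, ENNReal.ofReal |(Matrix.of G).det| * ∏ k, w (G k)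

lemma measurable_absdet {d : ℕ} :
    Measurable (fun G : Fin d → Fin d → ℝ => ENNReal.ofReal |(Matrix.of G).det|) := by
  have : Continuous (fun G : Fin d → Fin d → ℝ => |(Matrix.of G).det|) := by
    have h1 : Continuous (fun G : Fin d → Fin d → ℝ => (Matrix.of G)) := by
      exact continuous_id
    exact (h1.matrix_det).abs
  exact this.measurable.ennreal_ofReal

lemma measurable_prod_w {d n : ℕ} :
    Measurable (fun G : Fin n → Fin d → ℝ => ∏ k, w (G k)) :=
  Finset.measurable_prod _ (fun k _ => measurable_w.comp (measurable_pi_apply k))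

lemma exists_factor {d : ℕ} (A : Matrix (Fin d) (Fin d) ℝ) (hA : A.PosDef) :
    ∃ B : Matrix (Fin d) (Fin d) ℝ, A = Bᵀ * B ∧ |B.det| = √A.det ∧ B.det ≠ 0 := by
  obtain ⟨B, hB⟩ := CStarAlgebra.nonneg_iff_eq_star_mul_self.mp hA.posSemidef.nonneg
  have hB' : A = Bᵀ * B := by
    rw [hB, star_eq_conjTranspose]
    congr 1
  have hdet : A.det = B.det ^ 2 := by
    rw [hB', det_mul, det_transpose]; ring
  have hpos := hA.det_pos
  refine ⟨B, hB', ?_, ?_⟩
  · rw [hdet, Real.sqrt_sq_eq_abs]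
  · intro h0
    rw [hdet, h0] at hpos
    simp at hpos

/-- Gaussian integral with a positive definite form on each row, weighted by `|det|`. -/
theorem lintegral_det_posDef {d : ℕ} (A : Matrix (Fin d) (Fin d) ℝ) (hA : A.PosDef) :
    ∫⁻ G : Fin d → Fin d → ℝ, ENNReal.ofReal |(Matrix.of G).det| *
      ∏ k, ENNReal.ofReal (Real.exp (-(1 / 2) * ((G k) ⬝ᵥ (A *ᵥ (G k))))) =
      ENNReal.ofReal (√A.det)⁻¹ ^ (d + 1) * Dconst d := by
  obtain ⟨B, hBA, hBdet, hB0⟩ := exists_factor A hA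
  have hdetB : 0 < |B.det| := abs_pos.mpr hB0
  have h1 : ∀ G : Fin d → Fin d → ℝ, ENNReal.ofReal |(Matrix.of G).det| *
      ∏ k, ENNReal.ofReal (Real.exp (-(1 / 2) * ((G k) ⬝ᵥ (A *ᵥ (G k))))) =
      ENNReal.ofReal (|B.det|⁻¹) *
        (fun G' : Fin d → Fin d → ℝ => ENNReal.ofReal |(Matrix.of G').det| * ∏ k, w (G' k))
          (fun k => B *ᵥ (G k)) := by
    intro G
    simp only
    have h2 : (Matrix.of fun k => B *ᵥ (G k)) = Matrix.of G * Bᵀ := by
      ext k i
      simp [Matrix.mul_apply, mulVec, dotProduct, mul_comm]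
    rw [h2, det_mul, det_transpose, abs_mul]
    simp_rw [w_mulVec, ← hBA]
    rw [← mul_assoc]
    congr 1
    rw [← ENNReal.ofReal_mul (by positivity)]
    congr 1
    field_simp
  simp_rw [h1]
  rw [lintegral_const_mul _ (by
    apply Measurable.mul
    · have : Continuous (fun G : Fin d → Fin d → ℝ => |(Matrix.of fun k => B *ᵥ (G k)).det|) := by
        have h3 : Continuous (fun G : Fin d → Fin d → ℝ => (Matrix.of fun k => B *ᵥ (G k))) := by
          refine continuous_matrix fun i j => ?_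
          simp only [of_apply, mulVec, dotProduct]
          fun_prop
        exact (h3.matrix_det).abs
      exact this.measurable.ennreal_ofReal
    · refine Finset.measurable_prod _ (fun k _ => measurable_w.comp ?_)
      have : Continuous (fun G : Fin d → Fin d → ℝ => B *ᵥ (G k)) := by fun_prop
      exact this.measurable)]
  rw [lintegral_rows B hB0 (fun G' : Fin d → Fin d → ℝ => ENNReal.ofReal |(Matrix.of G').det| *
    ∏ k, w (G' k)) (measurable_absdet.mul measurable_prod_w), ← hBdet, ← mul_assoc, pow_succ',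
    Dconst]

/-- Gaussian integral with a positive definite form, one vector. -/
theorem lintegral_posDef {d : ℕ} (A : Matrix (Fin d) (Fin d) ℝ) (hA : A.PosDef) :
    ∫⁻ x : Fin d → ℝ, ENNReal.ofReal (Real.exp (-(1 / 2) * (x ⬝ᵥ (A *ᵥ x)))) =
      ENNReal.ofReal (√A.det)⁻¹ * ∫⁻ x : Fin d → ℝ, w x := by
  obtain ⟨B, hBA, hBdet, hB0⟩ := exists_factor A hA
  have h1 : ∀ x : Fin d → ℝ, ENNReal.ofReal (Real.exp (-(1 / 2) * (x ⬝ᵥ (A *ᵥ x)))) =
      w (B *ᵥ x) := by
    intro x
    rw [w_mulVec, ← hBA]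
  simp_rw [h1]
  rw [lintegral_vec B hB0 w measurable_w, ← hBdet]

end Pool.Agent.SolidAngle
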