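import Pool.Agent.SolidAngle.Bound

/-!
The half moment of the (normalised) cone mass, by the Cauchy-Schwarz inequality.
-/

set_option autoImplicit false
open MeasureTheory MeasureTheory.Measure Matrix Real
open scoped ENNReal MatrixOrder

namespace Pool.Agent.SolidAngle

/-- The convex cone generated by a family of vectors. -/
def coneOf {d : ℕ} (c : Fin d → Fin d → ℝ) : Set (Fin d → ℝ) :=
  {x | ∃ l : Fin d → ℝ, (∀ i, 0 ≤ l i) ∧ x = ∑ i, l i • c i}

/-- Transposition. -/
def tr {d : ℕ} (c : Fin d → Fin d → ℝ) : Fin d → Fin d → ℝ := fun k j => c j k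

lemma coneOf_eq_image {d : ℕ} (c : Fin d → Fin d → ℝ) :
    coneOf c = (fun y => Matrix.of (tr c) *ᵥ y) '' orth d := by
  ext x
  constructor
  · rintro ⟨l, hl, rfl⟩
    refine ⟨l, (mem_orth l).mpr hl, ?_⟩
    ext k
    simp [mulVec, dotProduct, tr, mul_comm]
  · rintro ⟨l, hl, rfl⟩
    refine ⟨l, (mem_orth l).mp hl, ?_⟩
    ext k
    simp [mulVec, dotProduct, tr, mul_comm]

lemma coneMass_le {d : ℕ} (c : Fin d → Fin d → ℝ) :
    ∫⁻ x in coneOf c, w x ≤
      ENNReal.ofReal |(Matrix.of (tr c)).det| *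
        ∫⁻ y in orth d, w (Matrix.of (tr c) *ᵥ y) := by
  set B : Matrix (Fin d) (Fin d) ℝ := Matrix.of (tr c) with hB
  by_cases h : B.det = 0
  · have hz : (volume : Measure (Fin d → ℝ)) (coneOf c) = 0 := by
      rw [coneOf_eq_image, ← hB]
      have := Measure.addHaar_image_linearMap (volume : Measure (Fin d → ℝ)) (Matrix.toLin' B)
        (orth d)
      rw [LinearMap.det_toLin', h, abs_zero, ENNReal.ofReal_zero, zero_mul] at this
      exact this
    rw [setLIntegral_measure_zero _ _ hz]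
    exact zero_le
  · have hinj : Function.Injective (fun y => B *ᵥ y) := by
      have hu : IsUnit B := (Matrix.isUnit_iff_isUnit_det B).mpr (isUnit_iff_ne_zero.mpr h)
      exact Matrix.mulVec_injective_iff_isUnit.mpr hu
    have hcont : Continuous (fun y : Fin d → ℝ => B *ᵥ y) := by fun_prop
    have himg : MeasurableSet (coneOf c) := by
      rw [coneOf_eq_image]
      exact (measurableSet_orth d).image_of_continuousOn_injOn hcont.continuousOn
        hinj.injOn
    have h1 := lintegral_vec B h ((coneOf c).indicator w)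
      (measurable_w.indicator himg)
    have h2 : ∀ y, (coneOf c).indicator w (B *ᵥ y) =
        (orth d).indicator (fun y => w (B *ᵥ y)) y := by
      intro y
      by_cases hy : y ∈ orth d
      · rw [Set.indicator_of_mem hy, Set.indicator_of_mem]
        rw [coneOf_eq_image]
        exact ⟨y, hy, rfl⟩
      · rw [Set.indicator_of_notMem hy, Set.indicator_of_notMem]
        rw [coneOf_eq_image]
        rintro ⟨y', hy', he⟩
        exact hy (hinj he ▸ hy')
    simp_rw [h2] at h1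
    rw [lintegral_indicator (measurableSet_orth d), lintegral_indicator himg] at h1
    rw [h1, ← mul_assoc, ← ENNReal.ofReal_mul (abs_nonneg _),
      mul_inv_cancel₀ (abs_ne_zero.mpr h), ENNReal.ofReal_one, one_mul]

lemma prod_w_tr {d : ℕ} (c : Fin d → Fin d → ℝ) : ∏ k, w (tr c k) = ∏ j, w (c j) := by
  simp_rw [w_eq_prod, tr]
  exact Finset.prod_comm

/-- Transposition as a linear map. -/
def trLin (d : ℕ) : (Fin d → Fin d → ℝ) →ₗ[ℝ] (Fin d → Fin d → ℝ) where
  toFun := tr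
  map_add' _ _ := rfl
  map_smul' _ _ := rfl

lemma lintegral_tr {d : ℕ} (f : (Fin d → Fin d → ℝ) → ℝ≥0∞) (hf : Measurable f) :
    ∫⁻ c, f (tr c) = ∫⁻ c, f c := by
  have hdet : LinearMap.det (trLin d) * LinearMap.det (trLin d) = 1 := by
    rw [← LinearMap.det_comp]
    have : (trLin d) ∘ₗ (trLin d) = LinearMap.id := by
      ext c; rfl
    rw [this, LinearMap.det_id]
  have habs : |LinearMap.det (trLin d)| = 1 := by
    have h2 : |LinearMap.det (trLin d)| * |LinearMap.det (trLin d)| = 1 := by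
      rw [← abs_mul, hdet, abs_one]
    nlinarith [abs_nonneg (LinearMap.det (trLin d))]
  have hne : LinearMap.det (trLin d) ≠ 0 := by
    intro h; rw [h] at hdet; simp at hdet
  have hmap := Measure.map_linearMap_addHaar_eq_smul_addHaar
    (volume : Measure (Fin d → Fin d → ℝ)) hne
  rw [abs_inv, habs, inv_one, ENNReal.ofReal_one, one_smul] at hmap
  have hm : Measurable (trLin d) := by
    have : Continuous (fun c : Fin d → Fin d → ℝ => tr c) := by
      unfold tr; fun_prop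
    exact this.measurable
  calc ∫⁻ c, f (tr c) = ∫⁻ c, f (trLin d c) := rfl
    _ = ∫⁻ c, f c ∂(Measure.map (trLin d) volume) := (lintegral_map hf hm).symm
    _ = ∫⁻ c, f c := by rw [hmap]

/-- The upper bound for the cone mass, as a function of the matrix with rows `G k`. -/
noncomputable def Kf {d : ℕ} (G : Fin d → Fin d → ℝ) : ℝ≥0∞ :=
  ENNReal.ofReal |(Matrix.of G).det| * ∫⁻ y in orth d, w (Matrix.of G *ᵥ y)

lemma measurable_Kf {d : ℕ} : Measurable (Kf : (Fin d → Fin d → ℝ) → ℝ≥0∞) := by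
  unfold Kf
  exact measurable_absdet.mul (Measurable.lintegral_prod_right'
    (f := fun p : (Fin d → Fin d → ℝ) × (Fin d → ℝ) => w (Matrix.of p.1 *ᵥ p.2))
    measurable_w_mulVec)

/-- The bound on the half moment. -/
theorem half_moment {d : ℕ} (hd : 0 < d) :
    ∫⁻ c : Fin d → Fin d → ℝ, (∏ j, w (c j)) *
      (2 ^ d * (∫⁻ x in coneOf c, w x) / zc d) ^ (1 / 2 : ℝ) ≤
    zc d ^ d * (ENNReal.ofReal 2 * ENNReal.ofReal (49 / 50) ^ d) ^ (1 / 2 : ℝ) := by
  set g : ℝ≥0∞ := ENNReal.ofReal (√(π / 2)) with hg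
  have hg0 : g ≠ 0 := by
    rw [hg, Ne, ENNReal.ofReal_eq_zero, not_le]; positivity
  have hgt : g ≠ ∞ := ENNReal.ofReal_ne_top
  have hz0 := zc_ne_zero d
  have hzt := zc_ne_top d
  set s : ℝ := 1 / (10 * d) with hs
  have hd' : (0 : ℝ) < d := by exact_mod_cast hd
  have hs0 : 0 ≤ s := by positivity
  have hsd : s * d < 1 := by
    rw [hs]
    have : (1 : ℝ) / (10 * d) * d = 1 / 10 := by field_simp
    rw [this]; norm_num
  -- step 1: to rows
  have step1 : ∫⁻ c : Fin d → Fin d → ℝ, (∏ j, w (c j)) *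
      (2 ^ d * (∫⁻ x in coneOf c, w x) / zc d) ^ (1 / 2 : ℝ) ≤
      ∫⁻ G : Fin d → Fin d → ℝ, (∏ j, w (G j)) * (2 ^ d * Kf G / zc d) ^ (1 / 2 : ℝ) := by
    rw [← lintegral_tr (fun G : Fin d → Fin d → ℝ => (∏ j, w (G j)) *
      (2 ^ d * Kf G / zc d) ^ (1 / 2 : ℝ))]
    · refine lintegral_mono fun c => ?_
      simp only
      rw [prod_w_tr]
      gcongr
      exact coneMass_le c
    · apply measurable_prod_w.mul
      apply Measurable.pow_const
      exact (measurable_Kf.const_mul _).div_const _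
  -- step 2: Cauchy-Schwarz
  set f : (Fin d → Fin d → ℝ) → ℝ≥0∞ := fun G => ((∏ k, w (G k)) *
      ENNReal.ofReal (Real.exp ((1 / 2) * s * colSumSq G)) * Kf G * (2 ^ d / zc d)) ^ (1 / 2 : ℝ)
    with hf
  set h : (Fin d → Fin d → ℝ) → ℝ≥0∞ := fun G => ((∏ k, w (G k)) *
      ENNReal.ofReal (Real.exp (-((1 / 2) * s * colSumSq G)))) ^ (1 / 2 : ℝ) with hh
  have hfh : ∀ G : Fin d → Fin d → ℝ,
      (∏ j, w (G j)) * (2 ^ d * Kf G / zc d) ^ (1 / 2 : ℝ) = f G * h G := by
    intro G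
    rw [hf, hh]
    simp only
    rw [← ENNReal.mul_rpow_of_nonneg _ _ (by norm_num : (0 : ℝ) ≤ 1 / 2)]
    have hexp : ENNReal.ofReal (Real.exp ((1 / 2) * s * colSumSq G)) *
        ENNReal.ofReal (Real.exp (-((1 / 2) * s * colSumSq G))) = 1 := by
      rw [← ENNReal.ofReal_mul (Real.exp_pos _).le, ← Real.exp_add, add_neg_cancel,
        Real.exp_zero, ENNReal.ofReal_one]
    have h3 : (∏ k, w (G k)) * ENNReal.ofReal (Real.exp ((1 / 2) * s * colSumSq G)) * Kf G *
        (2 ^ d / zc d) * ((∏ k, w (G k)) *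
        ENNReal.ofReal (Real.exp (-((1 / 2) * s * colSumSq G)))) =
        ((∏ k, w (G k)) ^ (2 : ℝ)) * (2 ^ d * Kf G / zc d) := by
      rw [ENNReal.rpow_two]
      calc _ = (∏ k, w (G k)) ^ 2 * (ENNReal.ofReal (Real.exp ((1 / 2) * s * colSumSq G)) *
          ENNReal.ofReal (Real.exp (-((1 / 2) * s * colSumSq G)))) * (Kf G * (2 ^ d / zc d)) := by
            ring
        _ = _ := by
            rw [hexp, mul_one, ENNReal.div_eq_inv_mul, ENNReal.div_eq_inv_mul]
            ring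
    rw [h3, ENNReal.mul_rpow_of_nonneg _ _ (by norm_num : (0 : ℝ) ≤ 1 / 2), ← ENNReal.rpow_mul]
    norm_num
  have hmw := measurable_prod_w (d := d) (n := d)
  have hmc := measurable_colSumSq (d := d)
  have hfm : Measurable f := by
    rw [hf]
    apply Measurable.pow_const
    apply Measurable.mul_const
    apply Measurable.mul _ measurable_Kf
    apply hmw.mul
    fun_prop
  have hhm : Measurable h := by
    rw [hh]
    apply Measurable.pow_const
    apply hmw.mul
    fun_prop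
  have cs := ENNReal.lintegral_mul_le_Lp_mul_Lq (volume : Measure (Fin d → Fin d → ℝ))
    Real.HolderConjugate.two_two hfm.aemeasurable hhm.aemeasurable
  have hf2 : ∀ G, f G ^ (2 : ℝ) = (∏ k, w (G k)) *
      ENNReal.ofReal (Real.exp ((1 / 2) * s * colSumSq G)) * Kf G * (2 ^ d / zc d) := by
    intro G
    rw [hf]
    simp only
    rw [← ENNReal.rpow_mul]
    norm_num
  have hh2 : ∀ G, h G ^ (2 : ℝ) = (∏ k, w (G k)) *
      ENNReal.ofReal (Real.exp (-((1 / 2) * s * colSumSq G))) := by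
    intro G
    rw [hh]
    simp only
    rw [← ENNReal.rpow_mul]
    norm_num
  simp_rw [hf2, hh2] at cs
  rw [neg_moment hd] at cs
  -- bound for the first factor
  have hA := moment_bound s hs0 hsd
  have hQ := Q_bound hd
  set H : ℝ≥0∞ := ENNReal.ofReal (Real.exp (4 / 125)) * ENNReal.ofReal hval with hH
  set q0 : ℝ≥0∞ := ENNReal.ofReal (√(π / (2 * (9 / 10)))) with hq0
  have hA2 : (∫⁻ G : Fin d → Fin d → ℝ, (∏ k, w (G k)) *
      ENNReal.ofReal (Real.exp ((1 / 2) * s * colSumSq G)) * Kf G) * g ≤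
      q0 * H ^ d * zc d ^ d := by
    refine le_trans hA ?_
    gcongr
  have hA3 : (∫⁻ G : Fin d → Fin d → ℝ, (∏ k, w (G k)) *
      ENNReal.ofReal (Real.exp ((1 / 2) * s * colSumSq G)) * Kf G) ≤
      q0 * H ^ d * zc d ^ d / g := by
    rw [ENNReal.le_div_iff_mul_le (Or.inl hg0) (Or.inl hgt)]
    exact hA2
  have hF1 : ∫⁻ G : Fin d → Fin d → ℝ, (∏ k, w (G k)) *
      ENNReal.ofReal (Real.exp ((1 / 2) * s * colSumSq G)) * Kf G * (2 ^ d / zc d) ≤
      zc d ^ d * (q0 / g) * (H / g) ^ d := by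
    have hm7 : Measurable (fun G : Fin d → Fin d → ℝ => (∏ k, w (G k)) *
        ENNReal.ofReal (Real.exp ((1 / 2) * s * colSumSq G)) * Kf G) := by
      apply Measurable.mul _ measurable_Kf
      apply hmw.mul
      fun_prop
    rw [lintegral_mul_const _ hm7]
    calc _ ≤ q0 * H ^ d * zc d ^ d / g * (2 ^ d / zc d) := by gcongr
      _ = zc d ^ d * (q0 / g) * (H / g) ^ d := by
        have h2 : (2 : ℝ≥0∞) ^ d / zc d = (g ^ d)⁻¹ := by
          rw [zc_half d, mul_pow, ← hg, ENNReal.div_eq_inv_mul,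
            ENNReal.mul_inv (Or.inl (by simp)) (Or.inl (by simp)),
            mul_assoc, mul_comm (g ^ d)⁻¹, ← mul_assoc, ENNReal.inv_mul_cancel (by simp) (by simp),
            one_mul]
        rw [h2, ENNReal.div_eq_inv_mul, ENNReal.div_eq_inv_mul, ENNReal.div_eq_inv_mul, mul_pow,
          ENNReal.inv_pow]
        ring
  refine step1.trans ?_
  simp_rw [hfh]
  refine cs.trans ?_
  rw [← ENNReal.mul_rpow_of_nonneg _ _ (by norm_num : (0 : ℝ) ≤ 1 / 2)]
  have hzz : zc d ^ d = ((zc d ^ d) ^ 2) ^ (1 / 2 : ℝ) := by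
    rw [← ENNReal.rpow_two, ← ENNReal.rpow_mul]
    norm_num
  rw [hzz, ← ENNReal.mul_rpow_of_nonneg _ _ (by norm_num : (0 : ℝ) ≤ 1 / 2)]
  apply ENNReal.rpow_le_rpow _ (by norm_num)
  have hrate : H / g * ENNReal.ofReal (√(11 / 10))⁻¹ ≤ ENNReal.ofReal (49 / 50) := by
    have h1 := rate_lt
    have h2 : H * ENNReal.ofReal (√(11 / 10))⁻¹ ≤ ENNReal.ofReal (49 / 50) * g := by
      rw [hH, hg, ← ENNReal.ofReal_mul (Real.exp_pos _).le, ← ENNReal.ofReal_mul' (by positivity),
        ← ENNReal.ofReal_mul (by norm_num)]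
      exact ENNReal.ofReal_le_ofReal h1
    calc H / g * ENNReal.ofReal (√(11 / 10))⁻¹ = H * ENNReal.ofReal (√(11 / 10))⁻¹ / g := by
          rw [ENNReal.div_eq_inv_mul, ENNReal.div_eq_inv_mul]; ring
      _ ≤ ENNReal.ofReal (49 / 50) * g / g := by gcongr
      _ = ENNReal.ofReal (49 / 50) := ENNReal.mul_div_cancel_right hg0 hgt
  have hq : q0 / g ≤ ENNReal.ofReal 2 := by
    rw [ENNReal.div_le_iff hg0 hgt, hq0, hg, ← ENNReal.ofReal_mul (by norm_num)]
    apply ENNReal.ofReal_le_ofReal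
    have : (2 : ℝ) * √(π / 2) = √(4 * (π / 2)) := by
      rw [Real.sqrt_mul (by norm_num)]
      congr 1
      have : (4 : ℝ) = 2 ^ 2 := by norm_num
      rw [this, Real.sqrt_sq (by norm_num)]
    rw [this]
    apply Real.sqrt_le_sqrt
    have := Real.pi_pos
    norm_num
    linarith
  calc _ ≤ zc d ^ d * (q0 / g) * (H / g) ^ d * (ENNReal.ofReal (√(11 / 10))⁻¹ * zc d) ^ d := by
        gcongr
    _ = (zc d ^ d) ^ 2 * ((q0 / g) * (H / g * ENNReal.ofReal (√(11 / 10))⁻¹) ^ d) := by ring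
    _ ≤ (zc d ^ d) ^ 2 * (ENNReal.ofReal 2 * ENNReal.ofReal (49 / 50) ^ d) := by gcongr

end Pool.Agent.SolidAngle
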