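import Pool.Agent.SolidAngle.GaussMatrix

/-!
The size biased exponential moment of `|G 1|²`.
-/

set_option autoImplicit false
open MeasureTheory MeasureTheory.Measure Matrix
open scoped ENNReal MatrixOrder

namespace Pool.Agent.SolidAngle

/-- The matrix `1 + y yᵀ - s 1 1ᵀ`. -/
noncomputable def Amat {d : ℕ} (s : ℝ) (y : Fin d → ℝ) : Matrix (Fin d) (Fin d) ℝ :=
  1 + vecMulVec y y - s • vecMulVec 1 1

lemma Amat_quad {d : ℕ} (s : ℝ) (y x : Fin d → ℝ) :
    x ⬝ᵥ (Amat s y *ᵥ x) = ∑ i, x i ^ 2 + (x ⬝ᵥ y) ^ 2 - s * (∑ i, x i) ^ 2 := by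
  unfold Amat
  rw [sub_mulVec, add_mulVec, one_mulVec, smul_mulVec, vecMulVec_mulVec, vecMulVec_mulVec]
  rw [dotProduct_sub, dotProduct_add, dotProduct_smul]
  simp only [dotProduct, Pi.smul_apply, smul_eq_mul, Pi.one_apply, one_mul,
    MulOpposite.smul_eq_mul_unop, MulOpposite.unop_op]
  have h1 : ∑ i, x i * x i = ∑ i, x i ^ 2 := by simp [sq]
  have h2 : ∑ i, y i * x i = ∑ i, x i * y i := Finset.sum_congr rfl fun j _ => mul_comm _ _
  have h3 : ∑ i, x i * (s * ∑ j, x j) = s * (∑ i, x i) ^ 2 := by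
    rw [← Finset.sum_mul]; ring
  rw [h1, h2, h3]
  ring

lemma Amat_det {d : ℕ} (s : ℝ) (y : Fin d → ℝ) :
    (Amat s y).det = (1 - s * d) * (1 + ∑ i, y i ^ 2) + s * (∑ i, y i) ^ 2 := by
  set U : Matrix (Fin d) (Fin 2) ℝ := Matrix.of fun i j => if j = 0 then y i else 1 with hU
  set W : Matrix (Fin 2) (Fin d) ℝ := Matrix.of fun j i => if j = 0 then y i else -s with hW
  have h1 : Amat s y = 1 + U * W := by
    ext i j
    simp [Amat, hU, hW, Matrix.mul_apply, Fin.sum_univ_two, vecMulVec_apply]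
    ring
  rw [h1, det_one_add_mul_comm, det_fin_two]
  have e00 : (1 + W * U : Matrix (Fin 2) (Fin 2) ℝ) 0 0 = 1 + ∑ i, y i ^ 2 := by
    simp [hU, hW, Matrix.mul_apply, sq]
  have e01 : (1 + W * U : Matrix (Fin 2) (Fin 2) ℝ) 0 1 = ∑ i, y i := by
    simp [hU, hW, Matrix.mul_apply]
  have e10 : (1 + W * U : Matrix (Fin 2) (Fin 2) ℝ) 1 0 = -s * ∑ i, y i := by
    simp [hU, hW, Matrix.mul_apply, Finset.mul_sum]
  have e11 : (1 + W * U : Matrix (Fin 2) (Fin 2) ℝ) 1 1 = 1 - s * d := by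
    simp [hU, hW, Matrix.mul_apply]
    ring
  rw [e00, e01, e10, e11]
  ring

lemma Amat_posDef {d : ℕ} (s : ℝ) (hs : 0 ≤ s) (hsd : s * d < 1) (y : Fin d → ℝ) :
    (Amat s y).PosDef := by
  refine PosDef.of_dotProduct_mulVec_pos ?_ ?_
  · unfold Amat
    ext i j
    simp [vecMulVec_apply, Matrix.one_apply, mul_comm, eq_comm]
  · intro x hx
    rw [star_trivial, Amat_quad]
    have h1 : (∑ i, x i) ^ 2 ≤ d * ∑ i, x i ^ 2 := by
      have := sq_sum_le_card_mul_sum_sq (s := Finset.univ) (f := x)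
      simpa using this
    have h2 : 0 < ∑ i, x i ^ 2 := by
      obtain ⟨i, hi⟩ := Function.ne_iff.mp hx
      have hi' : x i ≠ 0 := hi
      exact Finset.sum_pos' (fun j _ => sq_nonneg _) ⟨i, Finset.mem_univ i, by positivity⟩
    have h3 : s * (∑ i, x i) ^ 2 ≤ s * d * ∑ i, x i ^ 2 := by
      rw [mul_assoc]; exact mul_le_mul_of_nonneg_left h1 hs
    nlinarith [sq_nonneg (x ⬝ᵥ y)]

/-- The quadratic form after homogenisation. -/
noncomputable def qform {d : ℕ} (s u : ℝ) (x : Fin d → ℝ) : ℝ :=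
  (1 - s * d) * (u ^ 2 + ∑ i, x i ^ 2) + s * (∑ i, x i) ^ 2

lemma qform_smul {d : ℕ} (s u : ℝ) (y : Fin d → ℝ) :
    qform s u (u • y) = u ^ 2 * (Amat s y).det := by
  rw [Amat_det, qform]
  simp only [Pi.smul_apply, smul_eq_mul, mul_pow, ← Finset.mul_sum]
  ring

/-- The constant `∫_0^∞ u^d exp (-u²/2) du`. -/
noncomputable def Cconst (d : ℕ) : ℝ≥0∞ :=
  ∫⁻ u in Set.Ioi (0 : ℝ), ENNReal.ofReal (u ^ d * Real.exp (-(1 / 2) * u ^ 2))

lemma radial_scaling (d : ℕ) (b : ℝ) (hb : 0 < b) :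
    ∫⁻ u in Set.Ioi (0 : ℝ), ENNReal.ofReal (u ^ d * Real.exp (-(1 / 2) * (u ^ 2 * b ^ 2))) =
      ENNReal.ofReal b⁻¹ ^ (d + 1) * Cconst d := by
  have hmap := Real.map_volume_mul_left hb.ne'
  have hm : Measurable (fun u : ℝ => b * u) := by fun_prop
  set F : ℝ → ℝ≥0∞ := (Set.Ioi (0 : ℝ)).indicator
    (fun u => ENNReal.ofReal (u ^ d * Real.exp (-(1 / 2) * u ^ 2))) with hF
  have hFm : Measurable F := by
    apply Measurable.indicator _ measurableSet_Ioi
    fun_prop
  have h1 : ∫⁻ u, F (b * u) = ENNReal.ofReal b⁻¹ * ∫⁻ u, F u := by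
    rw [← lintegral_map hFm hm, hmap, lintegral_smul_measure, smul_eq_mul,
      abs_of_pos (inv_pos.mpr hb)]
  have h2 : ∫⁻ u, F u = Cconst d := by
    rw [hF, lintegral_indicator measurableSet_Ioi, Cconst]
  have h3 : ∀ u, (Set.Ioi (0 : ℝ)).indicator (fun u =>
      ENNReal.ofReal (u ^ d * Real.exp (-(1 / 2) * (u ^ 2 * b ^ 2)))) u =
      ENNReal.ofReal b⁻¹ ^ d * F (b * u) := by
    intro u
    by_cases hu : 0 < u
    · have hbu : 0 < b * u := by positivity
      rw [Set.indicator_of_mem (Set.mem_Ioi.mpr hu), hF,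
        Set.indicator_of_mem (Set.mem_Ioi.mpr hbu), ← ENNReal.ofReal_pow (by positivity),
        ← ENNReal.ofReal_mul (by positivity)]
      congr 1
      have : (b * u) ^ 2 = u ^ 2 * b ^ 2 := by ring
      rw [this, mul_pow, inv_pow]
      field_simp
    · have hbu : ¬ 0 < b * u := by
        intro h
        exact hu (by
          by_contra h'
          push Not at h'
          nlinarith)
      rw [Set.indicator_of_notMem (by simpa using hu), hF,
        Set.indicator_of_notMem (by simpa using hbu), mul_zero]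
  rw [← lintegral_indicator measurableSet_Ioi]
  simp_rw [h3]
  rw [lintegral_const_mul (ENNReal.ofReal b⁻¹ ^ d) (f := fun u => F (b * u)) (hFm.comp hm),
    h1, h2, ← mul_assoc, pow_succ]

lemma vector_scaling {d : ℕ} (u : ℝ) (hu : 0 < u) (f : (Fin d → ℝ) → ℝ≥0∞) (hf : Measurable f) :
    ENNReal.ofReal (u ^ d) * ∫⁻ y : Fin d → ℝ, f (u • y) = ∫⁻ x, f x := by
  have hmap := Measure.map_addHaar_smul (volume : Measure (Fin d → ℝ)) hu.ne'
  have hm : Measurable (fun y : Fin d → ℝ => u • y) := by fun_prop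
  rw [← lintegral_map hf hm, hmap, lintegral_smul_measure, smul_eq_mul, ← mul_assoc,
    ← ENNReal.ofReal_mul (by positivity)]
  simp only [Module.finrank_fintype_fun_eq_card, Fintype.card_fin]
  rw [abs_of_pos (by positivity), mul_inv_cancel₀ (by positivity), ENNReal.ofReal_one, one_mul]

lemma measurable_expq {d : ℕ} (s : ℝ) :
    Measurable (fun p : ℝ × (Fin d → ℝ) =>
      ENNReal.ofReal (Real.exp (-(1 / 2) * qform s p.1 p.2))) := by
  unfold qform
  fun_prop

lemma continuous_det_Amat {d : ℕ} (s : ℝ) :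
    Continuous (fun y : Fin d → ℝ => (Amat s y).det) := by
  simp_rw [Amat_det]
  fun_prop

/-- Homogenisation of the determinant integral over a cone `S`. -/
theorem cone_integral {d : ℕ} (S : Set (Fin d → ℝ)) (hS : MeasurableSet S)
    (hcone : ∀ u : ℝ, 0 < u → ∀ y, u • y ∈ S ↔ y ∈ S) (s : ℝ) (hs : 0 ≤ s) (hsd : s * d < 1) :
    Cconst d * ∫⁻ y in S, ENNReal.ofReal (√(Amat s y).det)⁻¹ ^ (d + 1) =
      ∫⁻ u in Set.Ioi (0 : ℝ), ∫⁻ x in S, ENNReal.ofReal (Real.exp (-(1 / 2) * qform s u x)) := by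
  have hmeas1 : Measurable (fun y : Fin d → ℝ => ENNReal.ofReal (√(Amat s y).det)⁻¹ ^ (d + 1)) := by
    have := (continuous_det_Amat (d := d) s).measurable
    fun_prop
  rw [← lintegral_const_mul _ hmeas1]
  have h1 : ∀ y : Fin d → ℝ, Cconst d * ENNReal.ofReal (√(Amat s y).det)⁻¹ ^ (d + 1) =
      ∫⁻ u in Set.Ioi (0 : ℝ),
        ENNReal.ofReal (u ^ d * Real.exp (-(1 / 2) * (u ^ 2 * (Amat s y).det))) := by
    intro y
    have hpos := (Amat_posDef s hs hsd y).det_pos
    have := radial_scaling d (√(Amat s y).det) (Real.sqrt_pos.mpr hpos)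
    rw [Real.sq_sqrt hpos.le] at this
    rw [this, mul_comm]
  simp_rw [h1]
  rw [lintegral_lintegral_swap]
  · refine setLIntegral_congr_fun measurableSet_Ioi (fun u hu => ?_)
    have hu' : 0 < u := hu
    set F : (Fin d → ℝ) → ℝ≥0∞ := S.indicator
      (fun x => ENNReal.ofReal (Real.exp (-(1 / 2) * qform s u x))) with hF
    have hFm : Measurable F := by
      apply Measurable.indicator _ hS
      unfold qform
      fun_prop
    have h2 := vector_scaling u hu' F hFm
    have h3 : ∫⁻ x, F x = ∫⁻ x in S, ENNReal.ofReal (Real.exp (-(1 / 2) * qform s u x)) := by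
      rw [hF, lintegral_indicator hS]
    rw [← h3, ← h2, ← lintegral_indicator hS]
    have hm5 : Measurable (fun y : Fin d → ℝ => F (u • y)) := by
      have : Measurable (fun y : Fin d → ℝ => u • y) := by fun_prop
      exact hFm.comp this
    rw [← lintegral_const_mul _ hm5]
    refine lintegral_congr fun y => ?_
    by_cases hy : y ∈ S
    · rw [Set.indicator_of_mem hy, hF, Set.indicator_of_mem ((hcone u hu' y).mpr hy),
        qform_smul, ENNReal.ofReal_mul (by positivity)]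
    · have hy' : u • y ∉ S := fun h => hy ((hcone u hu' y).mp h)
      rw [Set.indicator_of_notMem hy, hF, Set.indicator_of_notMem hy', mul_zero]
  · have := (continuous_det_Amat (d := d) s)
    apply Measurable.aemeasurable
    have h5 : Measurable (fun p : (Fin d → ℝ) × ℝ => (Amat s p.1).det) :=
      (this.measurable).comp measurable_fst
    apply Measurable.ennreal_ofReal
    apply Measurable.mul
    · fun_prop
    · apply Measurable.exp
      apply Measurable.const_mul
      apply Measurable.mul _ h5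
      fun_prop

end Pool.Agent.SolidAngle
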