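import Pool.Agent.SolidAngle.Main

/-!
Exponential moments against the cone mass.
-/

set_option autoImplicit false
open MeasureTheory MeasureTheory.Measure Matrix
open scoped ENNReal MatrixOrder

namespace Pool.Agent.SolidAngle

/-- `∑_k (∑_j G k j)^2`, the squared norm of the sum of the columns. -/
noncomputable def colSumSq {d : ℕ} (G : Fin d → Fin d → ℝ) : ℝ := ∑ k, (∑ j, G k j) ^ 2

lemma weight_identity {d : ℕ} (s : ℝ) (G : Fin d → Fin d → ℝ) (y : Fin d → ℝ) :
    (∏ k, w (G k)) * ENNReal.ofReal (Real.exp ((1 / 2) * s * colSumSq G)) *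
      w (Matrix.of G *ᵥ y) =
      ∏ k, ENNReal.ofReal (Real.exp (-(1 / 2) * ((G k) ⬝ᵥ (Amat s y *ᵥ (G k))))) := by
  unfold w colSumSq
  rw [← ENNReal.ofReal_prod_of_nonneg (fun i _ => (Real.exp_pos _).le),
    ← ENNReal.ofReal_prod_of_nonneg (fun i _ => (Real.exp_pos _).le),
    ← ENNReal.ofReal_mul (Finset.prod_nonneg fun i _ => (Real.exp_pos _).le),
    ← ENNReal.ofReal_mul (mul_nonneg (Finset.prod_nonneg fun i _ => (Real.exp_pos _).le)
      (Real.exp_pos _).le)]
  congr 1
  rw [← Real.exp_sum, ← Real.exp_sum, ← Real.exp_add, ← Real.exp_add]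
  congr 1
  simp_rw [Amat_quad]
  have h1 : ∀ k, (Matrix.of G *ᵥ y) k = G k ⬝ᵥ y := fun k => rfl
  simp_rw [h1]
  rw [Finset.mul_sum, Finset.mul_sum, ← Finset.sum_add_distrib, ← Finset.sum_add_distrib]
  refine Finset.sum_congr rfl fun k _ => ?_
  ring

lemma measurable_colSumSq {d : ℕ} : Measurable (colSumSq : (Fin d → Fin d → ℝ) → ℝ) := by
  unfold colSumSq
  fun_prop

lemma measurable_w_mulVec {d : ℕ} :
    Measurable (fun p : (Fin d → Fin d → ℝ) × (Fin d → ℝ) => w (Matrix.of p.1 *ᵥ p.2)) := by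
  apply measurable_w.comp
  have : Continuous (fun p : (Fin d → Fin d → ℝ) × (Fin d → ℝ) => Matrix.of p.1 *ᵥ p.2) := by
    refine continuous_pi fun i => ?_
    simp only [mulVec, dotProduct, of_apply]
    fun_prop
  exact this.measurable

/-- The exponential moment of `colSumSq` against the (unnormalised) cone mass. -/
theorem moment_formula {d : ℕ} (S : Set (Fin d → ℝ)) (s : ℝ) (hs : 0 ≤ s)
    (hsd : s * d < 1) :
    ∫⁻ G : Fin d → Fin d → ℝ, (∏ k, w (G k)) *
      ENNReal.ofReal (Real.exp ((1 / 2) * s * colSumSq G)) *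
      (ENNReal.ofReal |(Matrix.of G).det| * ∫⁻ y in S, w (Matrix.of G *ᵥ y)) =
    Dconst d * ∫⁻ y in S, ENNReal.ofReal (√(Amat s y).det)⁻¹ ^ (d + 1) := by
  obtain ⟨K, hK⟩ : ∃ K : (Fin d → Fin d → ℝ) → (Fin d → ℝ) → ℝ≥0∞, ∀ G y, K G y =
      ENNReal.ofReal |(Matrix.of G).det| *
        ∏ k, ENNReal.ofReal (Real.exp (-(1 / 2) * ((G k) ⬝ᵥ (Amat s y *ᵥ (G k))))) :=
    ⟨_, fun _ _ => rfl⟩
  have hmj : Measurable (Function.uncurry K) := by
    unfold Function.uncurry
    simp_rw [hK]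
    apply Measurable.mul
    · exact measurable_absdet.comp measurable_fst
    · simp_rw [Amat_quad]
      apply Finset.measurable_prod
      intro k _
      apply Measurable.ennreal_ofReal
      apply Measurable.exp
      simp only [dotProduct]
      fun_prop
  have hwm : ∀ G : Fin d → Fin d → ℝ, Measurable (fun y : Fin d → ℝ => w (Matrix.of G *ᵥ y)) := by
    intro G
    have hc : Continuous (fun y : Fin d → ℝ => Matrix.of G *ᵥ y) := by fun_prop
    exact measurable_w.comp hc.measurable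
  have h1 : ∀ G : Fin d → Fin d → ℝ, (∏ k, w (G k)) *
      ENNReal.ofReal (Real.exp ((1 / 2) * s * colSumSq G)) *
      (ENNReal.ofReal |(Matrix.of G).det| * ∫⁻ y in S, w (Matrix.of G *ᵥ y)) =
      ∫⁻ y in S, K G y := by
    intro G
    rw [← mul_assoc, ← lintegral_const_mul _ (hwm G)]
    refine lintegral_congr fun y => ?_
    rw [hK, ← weight_identity]
    ring
  have hswap : ∫⁻ G : Fin d → Fin d → ℝ, ∫⁻ y in S, K G y =
      ∫⁻ y in S, ∫⁻ G : Fin d → Fin d → ℝ, K G y :=
    lintegral_lintegral_swap (μ := volume) (ν := volume.restrict S) hmj.aemeasurable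
  simp_rw [h1]
  rw [hswap]
  have hmA : Measurable (fun y : Fin d → ℝ => ENNReal.ofReal (√(Amat s y).det)⁻¹ ^ (d + 1)) := by
    have := (continuous_det_Amat (d := d) s).measurable
    fun_prop
  rw [← lintegral_const_mul _ hmA]
  refine lintegral_congr fun y => ?_
  simp_rw [hK]
  rw [lintegral_det_posDef _ (Amat_posDef s hs hsd y), mul_comm]

end Pool.Agent.SolidAngle
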