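import Pool.Agent.SolidAngle.Uniform

/-!
The rotation invariant probability on the sphere as the law of a normalised Gaussian vector, and
the half moment of the solid angle, in coordinates.
-/

set_option autoImplicit false
open MeasureTheory MeasureTheory.Measure Matrix Real
open scoped ENNReal MatrixOrder

namespace Pool.Agent.SolidAngle

/-- The normalised Gaussian measure. -/
noncomputable def gam' (d : ℕ) : Measure (Fin d → ℝ) := (zc d)⁻¹ • (volume.withDensity w)

lemma gam'_apply {d : ℕ} (s : Set (Fin d → ℝ)) (hs : MeasurableSet s) :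
    gam' d s = (zc d)⁻¹ * ∫⁻ x in s, w x := by
  unfold gam'
  rw [Measure.smul_apply, withDensity_apply _ hs, smul_eq_mul]

instance gam'_prob (d : ℕ) : IsProbabilityMeasure (gam' d) := by
  constructor
  rw [gam'_apply _ MeasurableSet.univ, Measure.restrict_univ]
  exact ENNReal.inv_mul_cancel (zc_ne_zero d) (zc_ne_top d)

/-- Sum of squares. -/
noncomputable def sq2 {d : ℕ} (x : Fin d → ℝ) : ℝ := ∑ i, x i ^ 2

lemma sq2_pos {d : ℕ} {x : Fin d → ℝ} (hx : x ≠ 0) : 0 < sq2 x := by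
  unfold sq2
  obtain ⟨i, hi⟩ := Function.ne_iff.mp hx
  exact Finset.sum_pos' (fun j _ => sq_nonneg _) ⟨i, Finset.mem_univ i, by
    have : x i ≠ 0 := hi
    positivity⟩

lemma sq2_eq_dot {d : ℕ} (x : Fin d → ℝ) : sq2 x = x ⬝ᵥ x := by
  unfold sq2
  simp [dotProduct, sq]

lemma sq2_mulVec {d : ℕ} (O : Matrix (Fin d) (Fin d) ℝ) (hO : Oᵀ * O = 1) (x : Fin d → ℝ) :
    sq2 (O *ᵥ x) = sq2 x := by
  rw [sq2_eq_dot, sq2_eq_dot, Matrix.dotProduct_mulVec, ← Matrix.mulVec_transpose,
    Matrix.mulVec_mulVec, hO, Matrix.one_mulVec]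

/-- Normalisation. -/
noncomputable def nz {d : ℕ} (x : Fin d → ℝ) : Fin d → ℝ := (√(sq2 x))⁻¹ • x

lemma measurable_sq2 {d : ℕ} : Measurable (sq2 : (Fin d → ℝ) → ℝ) := by
  unfold sq2
  fun_prop

lemma measurable_nz {d : ℕ} : Measurable (nz : (Fin d → ℝ) → Fin d → ℝ) := by
  unfold nz
  have := measurable_sq2 (d := d)
  exact (measurable_sq2.sqrt.inv).smul measurable_id

/-- The law of the normalised Gaussian vector. -/
noncomputable def tau (d : ℕ) : Measure (Fin d → ℝ) := (gam' d).map nz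

lemma gam'_ae {d : ℕ} (hd : 0 < d) : ∀ᵐ x ∂(gam' d), x ≠ 0 := by
  haveI : Nonempty (Fin d) := ⟨⟨0, hd⟩⟩
  have h0 : ∀ᵐ x : Fin d → ℝ ∂volume, x ≠ 0 := by
    simp [ae_iff]
  have hac : gam' d ≪ (volume : Measure (Fin d → ℝ)) := by
    unfold gam'
    exact (withDensity_absolutelyContinuous _ _).smul_left _
  exact hac.ae_le h0

lemma gam'_rotate {d : ℕ} (O : Matrix (Fin d) (Fin d) ℝ) (hO : Oᵀ * O = 1) :
    (gam' d).map (fun x => O *ᵥ x) = gam' d := by
  have hc : Continuous (fun x : Fin d → ℝ => O *ᵥ x) := by fun_prop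
  have hdet : O.det * O.det = 1 := by
    have := congrArg Matrix.det hO
    rwa [Matrix.det_mul, Matrix.det_transpose, Matrix.det_one] at this
  have hne : O.det ≠ 0 := by
    intro h; rw [h] at hdet; simp at hdet
  have habs : |O.det| = 1 := by
    have h2 : |O.det| * |O.det| = 1 := by rw [← abs_mul, hdet, abs_one]
    nlinarith [abs_nonneg O.det]
  ext s hs
  rw [map_apply hc.measurable hs, gam'_apply _ (hc.measurable hs), gam'_apply _ hs]
  congr 1
  rw [← lintegral_indicator (hc.measurable hs), ← lintegral_indicator hs]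
  have h1 := lintegral_vec O hne (s.indicator w) (measurable_w.indicator hs)
  rw [habs, inv_one, ENNReal.ofReal_one, one_mul] at h1
  rw [← h1]
  refine lintegral_congr fun x => ?_
  have hw : w (O *ᵥ x) = w x := by
    have := sq2_mulVec O hO x
    unfold sq2 at this
    unfold w
    rw [this]
  by_cases hx : O *ᵥ x ∈ s
  · rw [Set.indicator_of_mem (by exact hx), Set.indicator_of_mem hx, hw]
  · rw [Set.indicator_of_notMem (by exact hx), Set.indicator_of_notMem hx]

lemma tau_prob (d : ℕ) : IsProbabilityMeasure (tau d) :=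
  Measure.isProbabilityMeasure_map measurable_nz.aemeasurable

theorem tau_uniform {d : ℕ} (hd : 0 < d) : IsUniformOnSphere (tau d) := by
  haveI := tau_prob d
  refine ⟨inferInstance, ?_, fun O hO => ?_⟩
  · have hm : MeasurableSet {x : Fin d → ℝ | ∑ i, x i ^ 2 = 1} :=
      measurableSet_eq_fun (by fun_prop) measurable_const
    rw [tau, map_apply measurable_nz hm, ← prob_compl_eq_zero_iff (measurable_nz hm)]
    change ∀ᵐ x ∂(gam' d), x ∈ nz ⁻¹' {x : Fin d → ℝ | ∑ i, x i ^ 2 = 1}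
    filter_upwards [gam'_ae hd] with x hx
    have hp := sq2_pos hx
    have : ∑ i, (nz x) i ^ 2 = 1 := by
      unfold nz
      simp only [Pi.smul_apply, smul_eq_mul, mul_pow]
      rw [← Finset.mul_sum, inv_pow, Real.sq_sqrt hp.le]
      exact inv_mul_cancel₀ hp.ne'
    exact this
  · have hc : Continuous (fun x : Fin d → ℝ => O *ᵥ x) := by fun_prop
    rw [tau, map_map hc.measurable measurable_nz]
    have hcomm : (fun x : Fin d → ℝ => O *ᵥ x) ∘ nz = nz ∘ (fun x : Fin d → ℝ => O *ᵥ x) := by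
      funext x
      simp only [Function.comp_apply, nz]
      rw [sq2_mulVec O hO, Matrix.mulVec_smul]
    rw [hcomm, ← map_map measurable_nz hc.measurable, gam'_rotate O hO]

lemma smul_mem_coneOf {d : ℕ} (c : Fin d → Fin d → ℝ) (t : ℝ) (ht : 0 < t) (y : Fin d → ℝ) :
    t • y ∈ coneOf c ↔ y ∈ coneOf c := by
  have key : ∀ (t : ℝ), 0 < t → ∀ y : Fin d → ℝ, y ∈ coneOf c → t • y ∈ coneOf c := by
    rintro t ht y ⟨l, hl, rfl⟩
    refine ⟨fun i => t * l i, fun i => mul_nonneg ht.le (hl i), ?_⟩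
    rw [Finset.smul_sum]
    refine Finset.sum_congr rfl fun i _ => by rw [smul_smul]
  constructor
  · intro h
    have := key t⁻¹ (inv_pos.mpr ht) _ h
    rwa [smul_smul, inv_mul_cancel₀ ht.ne', one_smul] at this
  · exact key t ht y

lemma coneOf_rescale {d : ℕ} (c : Fin d → Fin d → ℝ) (t : Fin d → ℝ) (ht : ∀ i, 0 < t i) :
    coneOf (fun i => t i • c i) = coneOf c := by
  ext y
  constructor
  · rintro ⟨l, hl, rfl⟩
    refine ⟨fun i => l i * t i, fun i => mul_nonneg (hl i) (ht i).le, ?_⟩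
    refine Finset.sum_congr rfl fun i _ => by rw [smul_smul]
  · rintro ⟨l, hl, rfl⟩
    refine ⟨fun i => l i * (t i)⁻¹, fun i => mul_nonneg (hl i) (inv_pos.mpr (ht i)).le, ?_⟩
    refine Finset.sum_congr rfl fun i _ => ?_
    rw [smul_smul, mul_assoc, inv_mul_cancel₀ (ht i).ne', mul_one]

/-- The set of pairs (generators, point of the positive hull). -/
def conePairs (d : ℕ) : Set ((Fin d → Fin d → ℝ) × (Fin d → ℝ)) :=
  {p | p.2 ∈ coneOf p.1}

lemma measurableSet_conePairs (d : ℕ) : MeasurableSet (conePairs d) := by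
  have h1 : conePairs d = ⋃ R : ℕ, Prod.fst ''
      {q : ((Fin d → Fin d → ℝ) × (Fin d → ℝ)) × (Fin d → ℝ) |
        (q.1 ∈ Metric.closedBall (0 : (Fin d → Fin d → ℝ) × (Fin d → ℝ)) R ∧
        q.2 ∈ Set.Icc (0 : Fin d → ℝ) (fun _ => (R : ℝ))) ∧
        q.1.2 = ∑ i, q.2 i • q.1.1 i} := by
    ext p
    simp only [Set.mem_iUnion, Set.mem_image, Prod.exists]
    constructor
    · rintro ⟨l, hl, h⟩
      obtain ⟨R, hR⟩ := exists_nat_ge (max (∑ i, l i) ‖p‖)
      refine ⟨R, p.1, p.2, l, ⟨⟨?_, ⟨fun i => hl i, fun i => ?_⟩⟩, h⟩, rfl⟩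
      · rw [mem_closedBall_zero_iff]
        exact (le_max_right _ _).trans hR
      · exact (Finset.single_le_sum (fun j _ => hl j) (Finset.mem_univ i)).trans
          ((le_max_left _ _).trans hR)
    · rintro ⟨R, a, b, l, ⟨⟨_, ⟨hl, _⟩⟩, h⟩, rfl⟩
      exact ⟨l, fun i => hl i, h⟩
  rw [h1]
  refine MeasurableSet.iUnion fun R => ?_
  apply IsClosed.measurableSet
  apply IsCompact.isClosed
  apply IsCompact.image _ continuous_fst
  have hc : IsCompact ((Metric.closedBall (0 : (Fin d → Fin d → ℝ) × (Fin d → ℝ)) R) ×ˢ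
      Set.Icc (0 : Fin d → ℝ) (fun _ => (R : ℝ))) :=
    (isCompact_closedBall _ _).prod isCompact_Icc
  refine hc.of_isClosed_subset ?_ ?_
  · apply IsClosed.inter
    · apply IsClosed.inter
      · exact Metric.isClosed_closedBall.preimage continuous_fst
      · exact isClosed_Icc.preimage continuous_snd
    · apply isClosed_eq
      · fun_prop
      · fun_prop
  · rintro q ⟨hq, _⟩
    exact hq

lemma measurableSet_coneOf {d : ℕ} (c : Fin d → Fin d → ℝ) : MeasurableSet (coneOf c) :=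
  (measurable_prodMk_left (x := c)) (measurableSet_conePairs d)

/-- The sphere measure of the positive hull of normalised vectors. -/
lemma tau_coneOf {d : ℕ} (hd : 0 < d) (c : Fin d → Fin d → ℝ) (hc : ∀ i, c i ≠ 0) :
    tau d (coneOf (fun i => nz (c i))) = (∫⁻ x in coneOf c, w x) / zc d := by
  haveI : Nonempty (Fin d) := ⟨⟨0, hd⟩⟩
  have hhull : coneOf (fun i => nz (c i)) = coneOf c :=
    coneOf_rescale c (fun i => (√(sq2 (c i)))⁻¹)
      (fun i => inv_pos.mpr (Real.sqrt_pos.mpr (sq2_pos (hc i))))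
  have hm := measurableSet_coneOf c
  rw [hhull, tau, map_apply measurable_nz hm, gam'_apply _ (measurable_nz hm),
    ENNReal.div_eq_inv_mul]
  congr 1
  have hae : (nz ⁻¹' (coneOf c) : Set (Fin d → ℝ)) =ᵐ[volume] coneOf c := by
    have h0 : ∀ᵐ x : Fin d → ℝ ∂volume, x ≠ 0 := by
      simp [ae_iff]
    filter_upwards [h0] with x hx
    have e1 : (nz x ∈ coneOf c) ↔ x ∈ coneOf c := by
      unfold nz
      exact smul_mem_coneOf c _ (inv_pos.mpr (Real.sqrt_pos.mpr (sq2_pos hx))) x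
    exact propext e1
  exact setLIntegral_congr hae

/-- The half moment of the solid angle. -/
theorem half_moment_tau {d : ℕ} (hd : 0 < d) :
    ∫⁻ u : Fin d → Fin d → ℝ, (2 ^ d * tau d (coneOf u)) ^ (1 / 2 : ℝ)
      ∂(Measure.pi fun _ : Fin d => tau d) ≤
    (ENNReal.ofReal 2 * ENNReal.ofReal (49 / 50) ^ d) ^ (1 / 2 : ℝ) := by
  haveI : Nonempty (Fin d) := ⟨⟨0, hd⟩⟩
  haveI := tau_prob d
  set F : (Fin d → Fin d → ℝ) → ℝ≥0∞ := fun u => (2 ^ d * tau d (coneOf u)) ^ (1 / 2 : ℝ) with hF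
  have hFm : Measurable F := by
    rw [hF]
    apply Measurable.pow_const
    apply Measurable.const_mul
    exact measurable_measure_prodMk_left (ν := tau d) (measurableSet_conePairs d)
  have hpi : Measure.pi (fun _ : Fin d => tau d) =
      (Measure.pi (fun _ : Fin d => gam' d)).map (fun c i => nz (c i)) := by
    have hs : ∀ _ : Fin d, SigmaFinite ((gam' d).map nz) := by
      intro _
      change SigmaFinite (tau d)
      infer_instance
    rw [pi_map_pi (f := fun (_ : Fin d) (x : Fin d → ℝ) => nz x) (hμ := hs)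
      (fun i => measurable_nz.aemeasurable)]
    rfl
  have hNm : Measurable (fun (c : Fin d → Fin d → ℝ) i => nz (c i)) :=
    measurable_pi_lambda _ fun i => measurable_nz.comp (measurable_pi_apply i)
  rw [hpi, lintegral_map hFm hNm]
  -- density of the product Gaussian
  have hfin : IsFiniteMeasure ((volume : Measure (Fin d → ℝ)).withDensity w) := by
    constructor
    rw [withDensity_apply _ MeasurableSet.univ, Measure.restrict_univ]
    exact (zc_ne_top d).lt_top
  have hgam : Measure.pi (fun _ : Fin d => gam' d) =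
      (zc d)⁻¹ ^ d • (volume : Measure (Fin d → Fin d → ℝ)).withDensity
        (fun c => ∏ i, w (c i)) := by
    have hsf : SigmaFinite ((zc d)⁻¹ • (volume : Measure (Fin d → ℝ)).withDensity w) := by
      have := gam'_prob d
      unfold gam' at this
      infer_instance
    unfold gam'
    rw [pi_smul, pi_withDensity _ _ measurable_w]
    rfl
  have hwd : ∫⁻ c : Fin d → Fin d → ℝ, F (fun i => nz (c i))
      ∂((volume : Measure (Fin d → Fin d → ℝ)).withDensity
        (fun c : Fin d → Fin d → ℝ => ∏ i, w (c i))) =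
      ∫⁻ c : Fin d → Fin d → ℝ, ((fun c : Fin d → Fin d → ℝ => ∏ i, w (c i)) *
      (F ∘ fun (c : Fin d → Fin d → ℝ) i => nz (c i))) c :=
    lintegral_withDensity_eq_lintegral_mul _ measurable_prod_w (hFm.comp hNm)
  rw [hgam, lintegral_smul_measure, smul_eq_mul, hwd]
  have hae : ∀ᵐ c : Fin d → Fin d → ℝ ∂volume, ∀ i, c i ≠ 0 := by
    rw [ae_all_iff]
    intro i
    have h0 : ∀ᵐ x : Fin d → ℝ ∂volume, x ≠ 0 := by
      simp [ae_iff]
    exact (Measure.quasiMeasurePreserving_eval (fun _ : Fin d =>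
      (volume : Measure (Fin d → ℝ))) i).ae h0
  have hcongr : ∫⁻ c : Fin d → Fin d → ℝ, ((fun c : Fin d → Fin d → ℝ => ∏ i, w (c i)) *
      (F ∘ fun (c : Fin d → Fin d → ℝ) i => nz (c i))) c =
      ∫⁻ c : Fin d → Fin d → ℝ, (∏ j, w (c j)) *
      (2 ^ d * (∫⁻ x in coneOf c, w x) / zc d) ^ (1 / 2 : ℝ) := by
    refine lintegral_congr_ae ?_
    filter_upwards [hae] with c hc
    simp only [Pi.mul_apply, Function.comp_apply, hF]
    rw [tau_coneOf hd c hc, mul_div_assoc]
  have hz0 := zc_ne_zero d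
  have hzt := zc_ne_top d
  calc _ = (zc d)⁻¹ ^ d * ∫⁻ c : Fin d → Fin d → ℝ, ((fun c : Fin d → Fin d → ℝ => ∏ i, w (c i)) *
      (F ∘ fun (c : Fin d → Fin d → ℝ) i => nz (c i))) c := rfl
    _ = (zc d)⁻¹ ^ d * ∫⁻ c : Fin d → Fin d → ℝ, (∏ j, w (c j)) *
      (2 ^ d * (∫⁻ x in coneOf c, w x) / zc d) ^ (1 / 2 : ℝ) := by rw [hcongr]
    _ ≤ (zc d)⁻¹ ^ d * (zc d ^ d * (ENNReal.ofReal 2 * ENNReal.ofReal (49 / 50) ^ d)
        ^ (1 / 2 : ℝ)) := by
        gcongr
        exact half_moment hd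
    _ = (ENNReal.ofReal 2 * ENNReal.ofReal (49 / 50) ^ d) ^ (1 / 2 : ℝ) := by
        rw [← mul_assoc, ← mul_pow, ENNReal.inv_mul_cancel hz0 hzt, one_pow, one_mul]

end Pool.Agent.SolidAngle
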