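import Pool.Agent.SolidAngle.Half

/-!
The uniform measure on the sphere as the image of the Gaussian measure.
-/

set_option autoImplicit false
open MeasureTheory MeasureTheory.Measure Matrix Real Metric
open scoped ENNReal MatrixOrder

namespace Pool.Agent.SolidAngle

/-- Euclidean space of dimension `d`. -/
abbrev E (d : ℕ) := EuclideanSpace ℝ (Fin d)

/-- The rotation invariant probability measure on the unit sphere of `ℝ^d` (for `d ≥ 1`):
the surface measure induced by Lebesgue measure, normalised to have total mass one. -/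
noncomputable def sigma (d : ℕ) : Measure (sphere (0 : E d) 1) :=
  ((volume : Measure (E d)).toSphere Set.univ)⁻¹ • (volume : Measure (E d)).toSphere

/-- Radial projection to the sphere. -/
noncomputable def nrm {d : ℕ} (v0 : sphere (0 : E d) 1) (y : E d) : sphere (0 : E d) 1 :=
  open Classical in
  if h : y ∈ ({0}ᶜ : Set (E d)) then (homeomorphUnitSphereProd (E d) ⟨y, h⟩).1 else v0

lemma nrm_coe {d : ℕ} (v0 : sphere (0 : E d) 1) (y : E d) (hy : y ≠ 0) :
    (nrm v0 y : E d) = ‖y‖⁻¹ • y := by
  have h : y ∈ ({0}ᶜ : Set (E d)) := hy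
  unfold nrm
  rw [dif_pos h]
  simp

lemma measurable_nrm {d : ℕ} (v0 : sphere (0 : E d) 1) : Measurable (nrm v0) := by
  classical
  unfold nrm
  have h1 : Measurable (fun x : ({0}ᶜ : Set (E d)) => (homeomorphUnitSphereProd (E d) x).1) :=
    (continuous_fst.comp (homeomorphUnitSphereProd (E d)).continuous).measurable
  have h2 : Measurable (fun _ : ((({0}ᶜ : Set (E d))ᶜ : Set (E d))) => v0) := measurable_const
  have := Measurable.dite (s := ({0}ᶜ : Set (E d))) h1 h2 (measurableSet_singleton _).compl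
  convert this using 2

/-- The Gaussian weight on Euclidean space. -/
noncomputable def WE {d : ℕ} (y : E d) : ℝ≥0∞ := ENNReal.ofReal (Real.exp (-(1 / 2) * ‖y‖ ^ 2))

lemma WE_toLp {d : ℕ} (x : Fin d → ℝ) : WE (WithLp.toLp 2 x) = w x := by
  unfold WE w
  rw [EuclideanSpace.norm_sq_eq]
  simp

/-- The radial constant. -/
noncomputable def kap (d : ℕ) : ℝ≥0∞ :=
  ∫⁻ r : Set.Ioi (0 : ℝ), ENNReal.ofReal (Real.exp (-(1 / 2) * (r : ℝ) ^ 2))
    ∂(volumeIoiPow (Module.finrank ℝ (E d) - 1))

lemma polar {d : ℕ} (hd : 0 < d) (v0 : sphere (0 : E d) 1) (A : Set (sphere (0 : E d) 1))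
    (hA : MeasurableSet A) :
    ∫⁻ y : E d, (nrm v0 ⁻¹' A).indicator WE y = (volume : Measure (E d)).toSphere A * kap d := by
  haveI : Nonempty (Fin d) := ⟨⟨0, hd⟩⟩
  haveI : Nontrivial (E d) := inferInstance
  have h0 : ∫⁻ y : E d, (nrm v0 ⁻¹' A).indicator WE y =
      ∫⁻ y in ({0}ᶜ : Set (E d)), (nrm v0 ⁻¹' A).indicator WE y := by
    rw [restrict_compl_singleton]
  rw [h0, ← lintegral_subtype_comap (measurableSet_singleton (0 : E d)).compl]
  have hmp := (volume : Measure (E d)).measurePreserving_homeomorphUnitSphereProd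
  have h1 : ∀ x : ({0}ᶜ : Set (E d)), (nrm v0 ⁻¹' A).indicator WE (x : E d) =
      (fun p : sphere (0 : E d) 1 × Set.Ioi (0 : ℝ) => A.indicator 1 p.1 *
        ENNReal.ofReal (Real.exp (-(1 / 2) * (p.2 : ℝ) ^ 2))) (homeomorphUnitSphereProd (E d) x) := by
    intro x
    have hx : (x : E d) ∈ ({0}ᶜ : Set (E d)) := x.2
    have hn : nrm v0 (x : E d) = (homeomorphUnitSphereProd (E d) x).1 := by
      unfold nrm
      rw [dif_pos hx]
    simp only
    by_cases hm : (homeomorphUnitSphereProd (E d) x).1 ∈ A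
    · rw [Set.indicator_of_mem (by rw [Set.mem_preimage, hn]; exact hm),
        Set.indicator_of_mem hm]
      simp [WE]
    · rw [Set.indicator_of_notMem (by rw [Set.mem_preimage, hn]; exact hm),
        Set.indicator_of_notMem hm, zero_mul]
  simp_rw [h1]
  have hmf : Measurable (fun p : sphere (0 : E d) 1 × Set.Ioi (0 : ℝ) => A.indicator 1 p.1 *
        ENNReal.ofReal (Real.exp (-(1 / 2) * (p.2 : ℝ) ^ 2))) := by
    apply Measurable.mul
    · exact (measurable_one.indicator hA).comp measurable_fst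
    · fun_prop
  rw [hmp.lintegral_comp hmf, lintegral_prod_mul (f := A.indicator 1)
    (g := fun r : Set.Ioi (0 : ℝ) => ENNReal.ofReal (Real.exp (-(1 / 2) * (r : ℝ) ^ 2)))
    (measurable_one.indicator hA).aemeasurable (by fun_prop), lintegral_indicator_one hA]
  rfl

end Pool.Agent.SolidAngle
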