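import Pool.Agent.SolidAngle.Sphere

/-!
Transfer between the sphere and Gaussian vectors; the half moment of the solid angle.
-/

set_option autoImplicit false
open MeasureTheory MeasureTheory.Measure Matrix Real Metric
open scoped ENNReal MatrixOrder

namespace Pool.Agent.SolidAngle

/-- The positive hull of finitely many vectors. -/
def posHull {d : ℕ} (x : Fin d → E d) : Set (E d) :=
  {y | ∃ l : Fin d → ℝ, (∀ i, 0 ≤ l i) ∧ y = ∑ i, l i • x i}

lemma smul_mem_posHull {d : ℕ} (x : Fin d → E d) (t : ℝ) (ht : 0 < t) (y : E d) :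
    t • y ∈ posHull x ↔ y ∈ posHull x := by
  have key : ∀ (t : ℝ), 0 < t → ∀ y : E d, y ∈ posHull x → t • y ∈ posHull x := by
    rintro t ht y ⟨l, hl, rfl⟩
    refine ⟨fun i => t * l i, fun i => mul_nonneg ht.le (hl i), ?_⟩
    rw [Finset.smul_sum]
    refine Finset.sum_congr rfl fun i _ => by rw [smul_smul]
  constructor
  · intro h
    have := key t⁻¹ (inv_pos.mpr ht) _ h
    rwa [smul_smul, inv_mul_cancel₀ ht.ne', one_smul] at this
  · exact key t ht y

lemma posHull_rescale {d : ℕ} (x : Fin d → E d) (t : Fin d → ℝ) (ht : ∀ i, 0 < t i) :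
    posHull (fun i => t i • x i) = posHull x := by
  ext y
  constructor
  · rintro ⟨l, hl, rfl⟩
    refine ⟨fun i => l i * t i, fun i => mul_nonneg (hl i) (ht i).le, ?_⟩
    refine Finset.sum_congr rfl fun i _ => by rw [smul_smul]
  · rintro ⟨l, hl, rfl⟩
    refine ⟨fun i => l i * (t i)⁻¹, fun i => mul_nonneg (hl i) (inv_pos.mpr (ht i)).le, ?_⟩
    refine Finset.sum_congr rfl fun i _ => ?_
    rw [smul_smul, mul_assoc, inv_mul_cancel₀ (ht i).ne', mul_one]

lemma mem_coneOf_iff {d : ℕ} (c : Fin d → Fin d → ℝ) (x : Fin d → ℝ) :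
    x ∈ coneOf c ↔ WithLp.toLp 2 x ∈ posHull (fun i => (WithLp.toLp 2 (c i) : E d)) := by
  constructor
  · rintro ⟨l, hl, rfl⟩
    refine ⟨l, hl, ?_⟩
    ext k
    simp
  · rintro ⟨l, hl, h⟩
    refine ⟨l, hl, ?_⟩
    ext k
    have := congrArg (fun v : E d => v k) h
    simpa using this

/-- The set of pairs (generators, point of the sphere in the positive hull). -/
def hullPairs (d : ℕ) : Set ((Fin d → sphere (0 : E d) 1) × sphere (0 : E d) 1) :=
  {p | (p.2 : E d) ∈ posHull (fun i => (p.1 i : E d))}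

lemma measurableSet_hullPairs (d : ℕ) : MeasurableSet (hullPairs d) := by
  have h1 : hullPairs d = ⋃ R : ℕ, Prod.fst ''
      {q : ((Fin d → sphere (0 : E d) 1) × sphere (0 : E d) 1) × (Fin d → ℝ) |
        q.2 ∈ Set.Icc (0 : Fin d → ℝ) (fun _ => (R : ℝ)) ∧
        (q.1.2 : E d) = ∑ i, q.2 i • (q.1.1 i : E d)} := by
    ext p
    simp only [Set.mem_iUnion, Set.mem_image, Prod.exists]
    constructor
    · rintro ⟨l, hl, h⟩
      obtain ⟨R, hR⟩ := exists_nat_ge (∑ i, l i)
      refine ⟨R, p.1, p.2, l, ⟨⟨fun i => hl i, fun i => ?_⟩, h⟩, rfl⟩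
      exact (Finset.single_le_sum (fun j _ => hl j) (Finset.mem_univ i)).trans hR
    · rintro ⟨R, a, b, l, ⟨⟨hl, _⟩, h⟩, rfl⟩
      exact ⟨l, fun i => hl i, h⟩
  rw [h1]
  refine MeasurableSet.iUnion fun R => ?_
  apply IsClosed.measurableSet
  apply IsCompact.isClosed
  apply IsCompact.image _ continuous_fst
  have hc : IsCompact ((Set.univ : Set ((Fin d → sphere (0 : E d) 1) × sphere (0 : E d) 1)) ×ˢ
      Set.Icc (0 : Fin d → ℝ) (fun _ => (R : ℝ))) := isCompact_univ.prod isCompact_Icc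
  refine hc.of_isClosed_subset ?_ ?_
  · apply IsClosed.inter
    · exact isClosed_Icc.preimage continuous_snd
    · apply isClosed_eq
      · fun_prop
      · fun_prop
  · rintro q ⟨hq, _⟩
    exact ⟨Set.mem_univ _, hq⟩

/-- The normalised Gaussian measure. -/
noncomputable def gam (d : ℕ) : Measure (Fin d → ℝ) := (zc d)⁻¹ • (volume.withDensity w)

lemma gam_apply {d : ℕ} (s : Set (Fin d → ℝ)) (hs : MeasurableSet s) :
    gam d s = (zc d)⁻¹ * ∫⁻ x in s, w x := by
  unfold gam
  rw [Measure.smul_apply, withDensity_apply _ hs, smul_eq_mul]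

instance gam_prob (d : ℕ) : IsProbabilityMeasure (gam d) := by
  constructor
  rw [gam_apply _ MeasurableSet.univ, Measure.restrict_univ]
  exact ENNReal.inv_mul_cancel (zc_ne_zero d) (zc_ne_top d)

lemma measurable_N {d : ℕ} (v0 : sphere (0 : E d) 1) :
    Measurable (fun x : Fin d → ℝ => nrm v0 (WithLp.toLp 2 x)) :=
  (measurable_nrm v0).comp (PiLp.volume_preserving_toLp (Fin d)).measurable

lemma polar' {d : ℕ} (hd : 0 < d) (v0 : sphere (0 : E d) 1) (A : Set (sphere (0 : E d) 1))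
    (hA : MeasurableSet A) :
    ∫⁻ x in (fun x : Fin d → ℝ => nrm v0 (WithLp.toLp 2 x)) ⁻¹' A, w x =
      (volume : Measure (E d)).toSphere A * kap d := by
  rw [← polar hd v0 A hA, ← lintegral_indicator (measurable_N v0 hA)]
  have hmp := PiLp.volume_preserving_toLp (Fin d)
  have hWm : Measurable (WE : E d → ℝ≥0∞) := by
    unfold WE; fun_prop
  rw [← hmp.lintegral_comp (hWm.indicator (measurable_nrm v0 hA))]
  refine lintegral_congr fun x => ?_
  by_cases hx : nrm v0 (WithLp.toLp 2 x) ∈ A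
  · rw [Set.indicator_of_mem (by exact hx), Set.indicator_of_mem (by exact hx), WE_toLp]
  · rw [Set.indicator_of_notMem (by exact hx), Set.indicator_of_notMem (by exact hx)]

lemma gam_map {d : ℕ} (hd : 0 < d) (v0 : sphere (0 : E d) 1) :
    (gam d).map (fun x => nrm v0 (WithLp.toLp 2 x)) = sigma d := by
  ext A hA
  rw [map_apply (measurable_N v0) hA, gam_apply _ (measurable_N v0 hA), polar' hd v0 A hA]
  have h1 := polar' hd v0 Set.univ MeasurableSet.univ
  rw [Set.preimage_univ, Measure.restrict_univ] at h1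
  have hz : zc d = (volume : Measure (E d)).toSphere Set.univ * kap d := h1
  have hz0 := zc_ne_zero d
  have hzt := zc_ne_top d
  have hS0 : (volume : Measure (E d)).toSphere Set.univ ≠ 0 := by
    intro h; rw [h, zero_mul] at hz; exact hz0 hz
  have hk0 : kap d ≠ 0 := by
    intro h; rw [h, mul_zero] at hz; exact hz0 hz
  have hSt : (volume : Measure (E d)).toSphere Set.univ ≠ ∞ := measure_ne_top _ _
  have hkt : kap d ≠ ∞ := by
    intro h; rw [h, ENNReal.mul_top hS0] at hz; exact hzt hz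
  unfold sigma
  rw [Measure.smul_apply, smul_eq_mul, hz, ENNReal.mul_inv (Or.inl hS0) (Or.inl hSt)]
  calc _ = ((volume : Measure (E d)).toSphere Set.univ)⁻¹ * (volume : Measure (E d)).toSphere A *
        ((kap d)⁻¹ * kap d) := by ring
    _ = _ := by rw [ENNReal.inv_mul_cancel hk0 hkt, mul_one]

lemma sigma_prob {d : ℕ} (hd : 0 < d) : IsProbabilityMeasure (sigma d) := by
  haveI : Nonempty (Fin d) := ⟨⟨0, hd⟩⟩
  haveI : Nontrivial (E d) := inferInstance
  obtain ⟨v0⟩ : Nonempty (sphere (0 : E d) 1) := by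
    rw [Set.nonempty_coe_sort]
    exact NormedSpace.sphere_nonempty.mpr zero_le_one
  rw [← gam_map hd v0]
  exact Measure.isProbabilityMeasure_map (measurable_N v0).aemeasurable

/-- The sphere measure of the positive hull of normalised vectors. -/
lemma sigma_posHull {d : ℕ} (hd : 0 < d) (v0 : sphere (0 : E d) 1) (c : Fin d → Fin d → ℝ)
    (hc : ∀ i, c i ≠ 0) :
    sigma d {v | (v : E d) ∈ posHull (fun i => (nrm v0 (WithLp.toLp 2 (c i)) : E d))} =
      (∫⁻ x in coneOf c, w x) / zc d := by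
  haveI : Nonempty (Fin d) := ⟨⟨0, hd⟩⟩
  haveI : Nontrivial (E d) := inferInstance
  have hlp : ∀ x : Fin d → ℝ, x ≠ 0 → (WithLp.toLp 2 x : E d) ≠ 0 := by
    intro x hx h
    apply hx
    have := congrArg (fun v : E d => (WithLp.ofLp v)) h
    simpa using this
  have hhull : posHull (fun i => (nrm v0 (WithLp.toLp 2 (c i)) : E d)) =
      posHull (fun i => (WithLp.toLp 2 (c i) : E d)) := by
    have h1 : (fun i => (nrm v0 (WithLp.toLp 2 (c i)) : E d)) =
        fun i => (‖(WithLp.toLp 2 (c i) : E d)‖⁻¹) • (WithLp.toLp 2 (c i) : E d) := by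
      funext i
      exact nrm_coe v0 _ (hlp _ (hc i))
    rw [h1]
    exact posHull_rescale _ _ (fun i => inv_pos.mpr (norm_pos_iff.mpr (hlp _ (hc i))))
  set A : Set (sphere (0 : E d) 1) :=
    {v | (v : E d) ∈ posHull (fun i => (nrm v0 (WithLp.toLp 2 (c i)) : E d))} with hA
  have hAm : MeasurableSet A := by
    have := measurableSet_hullPairs d
    exact (measurable_prodMk_left (x := fun i => nrm v0 (WithLp.toLp 2 (c i)))) this
  rw [← gam_map hd v0, map_apply (measurable_N v0) hAm, gam_apply _ (measurable_N v0 hAm),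
    ENNReal.div_eq_inv_mul]
  congr 1
  have hae : ((fun x : Fin d → ℝ => nrm v0 (WithLp.toLp 2 x)) ⁻¹' A : Set (Fin d → ℝ))
      =ᵐ[volume] coneOf c := by
    have h0 : ∀ᵐ x : Fin d → ℝ ∂volume, x ≠ 0 := by
      simp [ae_iff]
    filter_upwards [h0] with x hx
    have hx' := hlp x hx
    have e1 : (nrm v0 (WithLp.toLp 2 x) ∈ A) ↔ x ∈ coneOf c := by
      rw [hA, Set.mem_setOf_eq, hhull, nrm_coe v0 _ hx',
        smul_mem_posHull _ _ (inv_pos.mpr (norm_pos_iff.mpr hx')), mem_coneOf_iff]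
    exact propext e1
  exact setLIntegral_congr hae

/-- The half moment of the solid angle. -/
theorem half_moment_sphere {d : ℕ} (hd : 0 < d) :
    ∫⁻ u : Fin d → sphere (0 : E d) 1,
      (2 ^ d * sigma d {v | (v : E d) ∈ posHull (fun i => (u i : E d))}) ^ (1 / 2 : ℝ)
      ∂(Measure.pi fun _ : Fin d => sigma d) ≤
    (ENNReal.ofReal 2 * ENNReal.ofReal (49 / 50) ^ d) ^ (1 / 2 : ℝ) := by
  haveI : Nonempty (Fin d) := ⟨⟨0, hd⟩⟩
  haveI : Nontrivial (E d) := inferInstance
  obtain ⟨v0⟩ : Nonempty (sphere (0 : E d) 1) := by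
    rw [Set.nonempty_coe_sort]
    exact NormedSpace.sphere_nonempty.mpr zero_le_one
  haveI := sigma_prob hd
  set F : (Fin d → sphere (0 : E d) 1) → ℝ≥0∞ := fun u =>
    (2 ^ d * sigma d {v | (v : E d) ∈ posHull (fun i => (u i : E d))}) ^ (1 / 2 : ℝ) with hF
  have hFm : Measurable F := by
    rw [hF]
    apply Measurable.pow_const
    apply Measurable.const_mul
    exact measurable_measure_prodMk_left (ν := sigma d) (measurableSet_hullPairs d)
  have hpi : Measure.pi (fun _ : Fin d => sigma d) =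
      (Measure.pi (fun _ : Fin d => gam d)).map
        (fun c i => nrm v0 (WithLp.toLp 2 (c i))) := by
    have hs : ∀ _ : Fin d, SigmaFinite ((gam d).map (fun x => nrm v0 (WithLp.toLp 2 x))) := by
      intro _
      rw [gam_map hd v0]; infer_instance
    rw [pi_map_pi (f := fun (_ : Fin d) (x : Fin d → ℝ) => nrm v0 (WithLp.toLp 2 x)) (hμ := hs)
      (fun i => (measurable_N v0).aemeasurable)]
    simp_rw [gam_map hd v0]
  have hNm : Measurable (fun (c : Fin d → Fin d → ℝ) i => nrm v0 (WithLp.toLp 2 (c i))) :=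
    measurable_pi_lambda _ fun i => (measurable_N v0).comp (measurable_pi_apply i)
  rw [hpi, lintegral_map hFm hNm]
  -- density of the product Gaussian
  have hfin : IsFiniteMeasure ((volume : Measure (Fin d → ℝ)).withDensity w) := by
    constructor
    rw [withDensity_apply _ MeasurableSet.univ, Measure.restrict_univ]
    exact (zc_ne_top d).lt_top
  have hgam : Measure.pi (fun _ : Fin d => gam d) =
      (zc d)⁻¹ ^ d • (volume : Measure (Fin d → Fin d → ℝ)).withDensity
        (fun c => ∏ i, w (c i)) := by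
    have hsf : SigmaFinite ((zc d)⁻¹ • (volume : Measure (Fin d → ℝ)).withDensity w) := by
      have := gam_prob d
      unfold gam at this
      infer_instance
    unfold gam
    rw [pi_smul, pi_withDensity _ _ measurable_w]
    rfl
  have hwd : ∫⁻ c : Fin d → Fin d → ℝ, F (fun i => nrm v0 (WithLp.toLp 2 (c i)))
      ∂((volume : Measure (Fin d → Fin d → ℝ)).withDensity
        (fun c : Fin d → Fin d → ℝ => ∏ i, w (c i))) =
      ∫⁻ c : Fin d → Fin d → ℝ, ((fun c : Fin d → Fin d → ℝ => ∏ i, w (c i)) *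
      (F ∘ fun (c : Fin d → Fin d → ℝ) i => nrm v0 (WithLp.toLp 2 (c i)))) c :=
    lintegral_withDensity_eq_lintegral_mul _ measurable_prod_w (hFm.comp hNm)
  rw [hgam, lintegral_smul_measure, smul_eq_mul, hwd]
  have hae : ∀ᵐ c : Fin d → Fin d → ℝ ∂volume, ∀ i, c i ≠ 0 := by
    rw [ae_all_iff]
    intro i
    have h0 : ∀ᵐ x : Fin d → ℝ ∂volume, x ≠ 0 := by
      simp [ae_iff]
    exact (Measure.quasiMeasurePreserving_eval (fun _ : Fin d =>
      (volume : Measure (Fin d → ℝ))) i).ae h0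
  have hcongr : ∫⁻ c : Fin d → Fin d → ℝ, ((fun c : Fin d → Fin d → ℝ => ∏ i, w (c i)) *
      (F ∘ fun (c : Fin d → Fin d → ℝ) i => nrm v0 (WithLp.toLp 2 (c i)))) c =
      ∫⁻ c : Fin d → Fin d → ℝ, (∏ j, w (c j)) *
      (2 ^ d * (∫⁻ x in coneOf c, w x) / zc d) ^ (1 / 2 : ℝ) := by
    refine lintegral_congr_ae ?_
    filter_upwards [hae] with c hc
    simp only [Pi.mul_apply, Function.comp_apply, hF]
    rw [sigma_posHull hd v0 c hc, mul_div_assoc]
  have hz0 := zc_ne_zero d
  have hzt := zc_ne_top d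
  calc _ = (zc d)⁻¹ ^ d * ∫⁻ c : Fin d → Fin d → ℝ, ((fun c : Fin d → Fin d → ℝ => ∏ i, w (c i)) *
      (F ∘ fun (c : Fin d → Fin d → ℝ) i => nrm v0 (WithLp.toLp 2 (c i)))) c := rfl
    _ = (zc d)⁻¹ ^ d * ∫⁻ c : Fin d → Fin d → ℝ, (∏ j, w (c j)) *
      (2 ^ d * (∫⁻ x in coneOf c, w x) / zc d) ^ (1 / 2 : ℝ) := by rw [hcongr]
    _ ≤ (zc d)⁻¹ ^ d * (zc d ^ d * (ENNReal.ofReal 2 * ENNReal.ofReal (49 / 50) ^ d)
        ^ (1 / 2 : ℝ)) := by
        gcongr
        exact half_moment hd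
    _ = (ENNReal.ofReal 2 * ENNReal.ofReal (49 / 50) ^ d) ^ (1 / 2 : ℝ) := by
        rw [← mul_assoc, ← mul_pow, ENNReal.inv_mul_cancel hz0 hzt, one_pow, one_mul]

end Pool.Agent.SolidAngle
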