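import Pool.Agent.SolidAngle.Half

/-!
Rotation invariant probability measures on the unit sphere: uniqueness, and the realisation as
normalised Gaussian vector.
-/

set_option autoImplicit false
open MeasureTheory MeasureTheory.Measure Matrix
open scoped ENNReal MatrixOrder

namespace Pool.Agent.SolidAngle

/-- `μ` is a rotation invariant probability measure on the unit sphere of `ℝ^d`. -/
def IsUniformOnSphere {d : ℕ} (μ : Measure (Fin d → ℝ)) : Prop :=
  IsProbabilityMeasure μ ∧ μ {x | ∑ i, x i ^ 2 = 1} = 1 ∧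
    ∀ O : Matrix (Fin d) (Fin d) ℝ, Oᵀ * O = 1 → μ.map (fun x => O *ᵥ x) = μ

lemma IsUniformOnSphere.ae {d : ℕ} {μ : Measure (Fin d → ℝ)} (h : IsUniformOnSphere μ) :
    ∀ᵐ x ∂μ, ∑ i, x i ^ 2 = 1 := by
  haveI := h.1
  have hm : MeasurableSet {x : Fin d → ℝ | ∑ i, x i ^ 2 = 1} :=
    measurableSet_eq_fun (by fun_prop) measurable_const
  exact (prob_compl_eq_zero_iff hm).mpr h.2.1

/-- Characteristic function in coordinates. -/
noncomputable def cf {d : ℕ} (μ : Measure (Fin d → ℝ)) (y : Fin d → ℝ) : ℂ :=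
  ∫ x, Complex.exp (((x ⬝ᵥ y : ℝ) : ℂ) * Complex.I) ∂μ

lemma cf_rotate {d : ℕ} {μ : Measure (Fin d → ℝ)} (h : IsUniformOnSphere μ)
    (O : Matrix (Fin d) (Fin d) ℝ) (hO : Oᵀ * O = 1) (y : Fin d → ℝ) :
    cf μ (O *ᵥ y) = cf μ y := by
  have hc : Continuous (fun x : Fin d → ℝ => O *ᵥ x) := by fun_prop
  have hc2 : Continuous (fun x : Fin d → ℝ =>
      Complex.exp (((x ⬝ᵥ (O *ᵥ y) : ℝ) : ℂ) * Complex.I)) := by
    simp only [dotProduct]
    fun_prop
  unfold cf
  conv_lhs => rw [← h.2.2 O hO]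
  rw [integral_map hc.aemeasurable hc2.aestronglyMeasurable]
  congr 1
  ext x
  have : (O *ᵥ x) ⬝ᵥ (O *ᵥ y) = x ⬝ᵥ y := by
    rw [Matrix.dotProduct_mulVec, ← Matrix.mulVec_transpose, Matrix.mulVec_mulVec, hO,
      Matrix.one_mulVec]
  rw [this]

/-- Transitivity of the orthogonal group on spheres (Householder reflection). -/
lemma exists_reflection {d : ℕ} (y y' : Fin d → ℝ) (h : y ⬝ᵥ y = y' ⬝ᵥ y') :
    ∃ O : Matrix (Fin d) (Fin d) ℝ, Oᵀ * O = 1 ∧ O *ᵥ y = y' := by
  by_cases hy : y = y'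
  · exact ⟨1, by simp, by rw [hy, Matrix.one_mulVec]⟩
  · set n := y - y' with hn
    have hn0 : n ⬝ᵥ n ≠ 0 := by
      rw [Ne, dotProduct_self_eq_zero]
      exact sub_ne_zero.mpr hy
    set c : ℝ := 2 / (n ⬝ᵥ n) with hc
    refine ⟨1 - c • vecMulVec n n, ?_, ?_⟩
    · rw [transpose_sub, transpose_one, transpose_smul, transpose_vecMulVec]
      rw [sub_mul, mul_sub, mul_sub, one_mul, one_mul, mul_one, smul_mul_smul_comm,
        vecMulVec_mul_vecMulVec]
      have e1 : (c * c) • vecMulVec n ((n ⬝ᵥ n) • n) = (2 * c) • vecMulVec n n := by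
        rw [vecMulVec_smul, smul_smul]
        congr 1
        rw [hc]; field_simp
      rw [e1]
      ext i j
      simp [Matrix.sub_apply, Matrix.smul_apply]
      ring
    · rw [sub_mulVec, one_mulVec, smul_mulVec, vecMulVec_mulVec]
      have e2 : n ⬝ᵥ n = 2 * (n ⬝ᵥ y) := by
        rw [hn, sub_dotProduct, dotProduct_sub, dotProduct_sub, sub_dotProduct,
          dotProduct_comm y' y, ← h]
        ring
      have e3 : c * (n ⬝ᵥ y) = 1 := by
        rw [hc, e2]
        have : n ⬝ᵥ y ≠ 0 := by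
          intro h0; rw [e2, h0] at hn0; simp at hn0
        field_simp
      ext i
      simp only [Pi.sub_apply, Pi.smul_apply, smul_eq_mul, MulOpposite.smul_eq_mul_unop,
        MulOpposite.unop_op]
      calc y i - c * (n i * (n ⬝ᵥ y)) = y i - (c * (n ⬝ᵥ y)) * n i := by ring
        _ = y' i := by rw [e3, hn]; simp

lemma cf_eq_of_norm {d : ℕ} {μ : Measure (Fin d → ℝ)} (h : IsUniformOnSphere μ)
    (y y' : Fin d → ℝ) (hy : y ⬝ᵥ y = y' ⬝ᵥ y') : cf μ y = cf μ y' := by
  obtain ⟨O, hO, hOy⟩ := exists_reflection y y' hy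
  rw [← hOy, cf_rotate h O hO]

/-- Uniqueness of the rotation invariant probability measure on the sphere. -/
theorem uniform_unique {d : ℕ} {μ ν : Measure (Fin d → ℝ)} (hμ : IsUniformOnSphere μ)
    (hν : IsUniformOnSphere ν) : μ = ν := by
  haveI := hμ.1
  haveI := hν.1
  have key : ∀ ξ : Fin d → ℝ, cf μ ξ = cf ν ξ := by
    intro ξ
    set t : ℝ := √(ξ ⬝ᵥ ξ) with ht
    have hξ0 : 0 ≤ ξ ⬝ᵥ ξ := by
      simp only [dotProduct]
      exact Finset.sum_nonneg fun i _ => mul_self_nonneg _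
    have ht2 : t * t = ξ ⬝ᵥ ξ := Real.mul_self_sqrt hξ0
    have hsame : ∀ (μ ν : Measure (Fin d → ℝ)), IsUniformOnSphere μ → IsUniformOnSphere ν →
        cf μ ξ = ∫ y, cf μ (t • y) ∂ν := by
      intro μ ν hμ hν
      haveI := hν.1
      have h1 : ∀ᵐ y ∂ν, cf μ (t • y) = cf μ ξ := by
        filter_upwards [hν.ae] with y hy
        apply cf_eq_of_norm hμ
        rw [smul_dotProduct, dotProduct_smul, smul_eq_mul, smul_eq_mul, ← mul_assoc, ht2]
        have : y ⬝ᵥ y = 1 := by
          simp only [dotProduct]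
          simpa [sq] using hy
        rw [this, mul_one]
      rw [integral_congr_ae h1]
      simp
    rw [hsame μ ν hμ hν, hsame ν μ hν hμ]
    unfold cf
    have hc : Continuous (Function.uncurry fun (y x : Fin d → ℝ) =>
        Complex.exp (((x ⬝ᵥ (t • y) : ℝ) : ℂ) * Complex.I)) := by
      simp only [dotProduct, Function.uncurry_def]
      fun_prop
    rw [integral_integral_swap]
    · congr 1
      ext x
      congr 1
      ext y
      have : x ⬝ᵥ (t • y) = y ⬝ᵥ (t • x) := by
        rw [dotProduct_smul, dotProduct_smul, dotProduct_comm]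
      rw [this]
    · refine Integrable.of_bound hc.aestronglyMeasurable 1 ?_
      refine Filter.Eventually.of_forall fun p => ?_
      simp only [Function.uncurry]
      rw [Complex.norm_exp_ofReal_mul_I]
  apply Measure.ext_of_charFunDual
  ext L
  rw [charFunDual_apply, charFunDual_apply]
  have hL : ∀ v : Fin d → ℝ, L v = v ⬝ᵥ (fun i => L (Pi.single i 1)) := by
    intro v
    have h1 : v = ∑ i, v i • (Pi.single i (1 : ℝ) : Fin d → ℝ) := by
      ext j
      rw [Finset.sum_apply, Finset.sum_eq_single j]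
      · simp
      · intro b _ hb
        rw [Pi.smul_apply, Pi.single_eq_of_ne hb.symm, smul_zero]
      · intro hj; exact absurd (Finset.mem_univ j) hj
    calc L v = L (∑ i, v i • (Pi.single i (1 : ℝ) : Fin d → ℝ)) := congrArg L h1
      _ = v ⬝ᵥ (fun i => L (Pi.single i 1)) := by
        rw [_root_.map_sum]
        unfold dotProduct
        exact Finset.sum_congr rfl fun i _ => by rw [L.map_smul, smul_eq_mul]
  have h2 : ∀ μ : Measure (Fin d → ℝ), ∫ v, Complex.exp (((L v : ℝ) : ℂ) * Complex.I) ∂μ =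
      cf μ (fun i => L (Pi.single i 1)) := by
    intro μ
    unfold cf
    congr 1
    ext v
    rw [← hL v]
  rw [h2, h2]
  exact key _

end Pool.Agent.SolidAngle
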